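import Pool.Agent.Q284.FDQ.Glob

/-!
# A positive proportion of the curves: the roots, and the finiteness of the sets of places
-/

set_option autoImplicit false

open WeierstrassCurve

namespace Pool.Agent.Q284.FDQ

open Finset Pool.Agent.W262.RK Pool.Agent.W307.RT Pool.Agent.W307.RS Pool.Agent.W307.SE
  Pool.Agent.W307.FK Pool.Agent.Y667.RP Pool.Agent.Y667.RZ Pool.Agent.Y667.MT
open Pool.Agent.Y285.RP Pool.Agent.Y285.RZ Pool.Agent.Y738.MT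
open Pool.Agent.Y667.PA (TPR)
open Pool.Agent.Q284.ISO

open Pool.Agent.W313.BMX (ram Splits splits_mul_sq)

open Classical in
/-- the sets of places are finite -/
theorem ram_fin {A B e1 e2 e3 : ℤ}
    (h : ∀ x : ℤ, x ^ 3 + A * x + B = (x - e1) * (x - e2) * (x - e3))
    (h12 : e1 ≠ e2) (h13 : e1 ≠ e3) (h23 : e2 ≠ e3)
    (Pr : ((WZ A B).baseChange ℝ).Point)
    (Pp : ∀ p : Nat.Primes, ((WZ A B).baseChange ℚ_[(p : ℕ)]).Point) {q : ℤ} (hq : q ≠ 0) :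
    (ram ⟨vl Pr (e1 : ℝ) ((e1 - e2) * (e1 - e3)),
      fun p => vl (Pp p) (e1 : ℚ_[(p : ℕ)]) ((e1 - e2) * (e1 - e3))⟩ q).Finite := by
  obtain ⟨D, hD⟩ : ∃ D : ℤ, D = 2 * (e2 - e1) * (e3 - e1) * ((e2 - e1) - (e3 - e1)) := ⟨_, rfl⟩
  have hA0 : e2 - e1 ≠ 0 := sub_ne_zero.2 h12.symm
  have hB0 : e3 - e1 ≠ 0 := sub_ne_zero.2 h13.symm
  have hAB : e2 - e1 ≠ e3 - e1 := fun h => h23 (by linarith)
  have hD0 : D ≠ 0 := by
    rw [hD]
    exact mul_ne_zero (mul_ne_zero (mul_ne_zero two_ne_zero hA0) hB0) (sub_ne_zero.2 hAB)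
  have h1 : {p : Nat.Primes | (p : ℕ) ≤ max D.natAbs (max 2 q.natAbs)}.Finite := by
    have h2 : (Set.Iic (max D.natAbs (max 2 q.natAbs))).Finite := Set.finite_Iic _
    exact h2.preimage (Subtype.val_injective.injOn)
  apply ((h1.image some).insert none).subset
  intro v hv
  match v with
  | none => exact Or.inl rfl
  | some p =>
    refine Or.inr ⟨p, ?_, rfl⟩
    by_contra hpz
    have hpz' : max D.natAbs (max 2 q.natAbs) < (p : ℕ) := not_le.1 hpz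
    have hnD : ¬ ((p : ℕ) : ℤ) ∣ 2 * (e2 - e1) * (e3 - e1) * ((e2 - e1) - (e3 - e1)) := by
      rw [← hD]
      intro hd
      have h2 := Nat.le_of_dvd (Int.natAbs_pos.2 hD0) (Int.natCast_dvd.1 hd)
      omega
    obtain ⟨⟨m, c, hm, hc, hmc⟩, -⟩ := fin_vl (WZ_eq h _) h12 h13 h23 hnD (Pp p)
    apply hv
    change Splits (vl (Pp p) (e1 : ℚ_[(p : ℕ)]) ((e1 - e2) * (e1 - e3))) _
    rw [hmc, splits_mul_sq hc]
    refine Pool.Agent.W335.BMX.odd2 _ (by omega) m q hm ?_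
    intro h
    have h3 := Nat.le_of_dvd (Int.natAbs_pos.2 hq) (Int.natCast_dvd.1 h)
    omega

/-- the property of the curves -/
def PR (c : ℤ × ℤ) : Prop := ∃ e1 e2 e3 : ℤ,
  (∀ x : ℤ, x ^ 3 + c.1 * x + c.2 = (x - e1) * (x - e2) * (x - e3)) ∧ e1 ≠ e2 ∧ e1 ≠ e3 ∧
  e2 ≠ e3 ∧ Four ((e2 - e1 : ℤ) : ℚ) ((e3 - e1 : ℤ) : ℚ) ∧ (Sel (e2 - e1) (e3 - e1)).ncard ≤ 4

lemma pr_of {a b k : ℤ} (hk : a + b = 3 * k) (hb : 0 < b) (hab : b < a)
    (hsq : ¬ IsSquare a) (h : TPR 0 (cc a b k)) : PR (cc a b k) := by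
  have hD : 4 * (cc a b k).1 ^ 3 + 27 * (cc a b k).2 ^ 2 ≠ 0 := by
    rw [cc_disc hk]
    have : a ^ 2 * b ^ 2 * (a - b) ^ 2 ≠ 0 :=
      mul_ne_zero (mul_ne_zero (pow_ne_zero 2 (by omega)) (pow_ne_zero 2 (by omega)))
        (pow_ne_zero 2 (by omega))
    exact neg_ne_zero.2 this
  have e1 : a - k - -k = a := by ring
  have e2 : b - k - -k = b := by ring
  have h4 : Four ((a - k - -k : ℤ) : ℚ) ((b - k - -k : ℤ) : ℚ) := by
    rw [e1, e2]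
    exact four_of hb hab (nsq_int hsq)
  have hn := mdl_gen (A := a - k - -k) (B := b - k - -k) (m := 1) hD (cc_root hk) one_ne_zero
    (by ring) (by ring) h4
  refine ⟨-k, a - k, b - k, cc_root hk, by omega, by omega, by omega, h4, ?_⟩
  rw [hn.2.2.2.2, h.2.1]
  norm_num

open Classical in
/-- **A positive proportion of the curves.** -/
theorem curvesPR : ∃ c : ℝ, 0 < c ∧ ∃ H0 : ℕ, ∀ H : ℕ, H0 ≤ H →
    c * ((Cv 2 H).card : ℝ) ≤ (((Cv 2 H).filter PR).card : ℝ) := by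
  refine transT 0 0 PR fun X t ht h hω => ?_
  obtain ⟨s, hs, e0, e1, hkk, hcase⟩ := pair_hp ht h
  obtain ⟨b0, ba, n1, n17⟩ := hp_four hs
  rcases hcase with ⟨h1, h2⟩ | ⟨h1, h2⟩
  · left
    rw [← e0, ← e1] at h1 ⊢
    exact pr_of hkk b0 ba n1 h1
  · right
    rw [← e0, ← e1] at h1 ⊢
    exact pr_of (by linarith) (by omega) (by omega) n17 h1

end Pool.Agent.Q284.FDQ
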