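import Pool.Agent.Q284.FDQ.Mdl
import Pool.Agent.W313.BMX.Final

/-!
# The Brauer-Manin obstruction for the quartics
-/

set_option autoImplicit false

namespace Pool.Agent.Q284.FDQ

open Finset Polynomial

open Pool.Agent.W313.BMX (Splits Fam Point AdelicPoint value values Admissible homog ram Orthogonal)

open Pool.Agent.W307.SE (Sel)

/-- the two factors of the quartic -/
noncomputable def fac (A B b : ℤ) : Fin 2 → ℤ[X] := ![C b * X ^ 2 - C A, C b * X ^ 2 - C B]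

lemma quad_deg {b A : ℤ} (hb : b ≠ 0) : (C b * X ^ 2 - C A : ℤ[X]).natDegree = 2 := by
  compute_degree!

lemma homog_quad {b A : ℤ} (hb : b ≠ 0) {R : Type} [CommRing R] (x w : R) :
    homog (C b * X ^ 2 - C A) x w = (b : R) * x ^ 2 - (A : R) * w ^ 2 := by
  unfold homog
  rw [quad_deg hb, sum_range_succ, sum_range_succ, sum_range_one]
  simp only [coeff_sub, coeff_C_mul, coeff_X_pow, coeff_C]
  norm_num
  ring

lemma homog_fac0 {A B b : ℤ} (hb : b ≠ 0) {R : Type} [CommRing R] (x w : R) :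
    homog (fac A B b 0) x w = (b : R) * x ^ 2 - (A : R) * w ^ 2 := homog_quad hb x w

lemma homog_fac1 {A B b : ℤ} (hb : b ≠ 0) {R : Type} [CommRing R] (x w : R) :
    homog (fac A B b 1) x w = (b : R) * x ^ 2 - (B : R) * w ^ 2 := homog_quad hb x w

lemma map_quad (b A : ℤ) : (C b * X ^ 2 - C A : ℤ[X]).map (Int.castRingHom ℚ) =
    C (b : ℚ) * X ^ 2 - C (A : ℚ) := by
  simp

lemma irr_quad {b A : ℤ} (hb : b ≠ 0) (h : ¬ ∃ x : ℚ, (b : ℚ) * x ^ 2 = A) :
    Irreducible ((C b * X ^ 2 - C A : ℤ[X]).map (Int.castRingHom ℚ)) := by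
  have hb' : (b : ℚ) ≠ 0 := Int.cast_ne_zero.2 hb
  rw [map_quad]
  have hdeg : (C (b : ℚ) * X ^ 2 - C (A : ℚ) : ℚ[X]).natDegree = 2 := by
    compute_degree!
  rw [irreducible_iff_roots_eq_zero_of_degree_le_three (by rw [hdeg]) (by rw [hdeg]; norm_num)]
  rw [Multiset.eq_zero_iff_forall_notMem]
  intro x hx
  have h0 : (C (b : ℚ) * X ^ 2 - C (A : ℚ) : ℚ[X]) ≠ 0 := by
    intro h0
    rw [h0] at hdeg
    simp at hdeg
  rw [mem_roots h0, IsRoot.def] at hx
  simp only [eval_sub, eval_mul, eval_C, eval_pow, eval_X] at hx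
  exact h ⟨x, by linarith⟩

lemma adm {A B b : ℤ} (hb : b ≠ 0) (hAB : A ≠ B) (hA : ¬ ∃ x : ℚ, (b : ℚ) * x ^ 2 = A)
    (hB : ¬ ∃ x : ℚ, (b : ℚ) * x ^ 2 = B) : Admissible (fac A B b) := by
  have hb' : (b : ℚ) ≠ 0 := Int.cast_ne_zero.2 hb
  have key : ∀ A B : ℤ, A ≠ B → ¬ Associated ((C b * X ^ 2 - C A : ℤ[X]).map (Int.castRingHom ℚ))
      ((C b * X ^ 2 - C B : ℤ[X]).map (Int.castRingHom ℚ)) := by
    intro A B hAB h
    rw [map_quad, map_quad] at h
    obtain ⟨u, hu⟩ := h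
    obtain ⟨c, hc, huc⟩ := Polynomial.isUnit_iff.1 u.isUnit
    rw [← huc] at hu
    have h2 := congrArg (fun p : ℚ[X] => p.coeff 2) hu
    have h0 := congrArg (fun p : ℚ[X] => p.coeff 0) hu
    simp only [coeff_mul_C, coeff_sub, coeff_C_mul, coeff_X_pow, coeff_C] at h2 h0
    norm_num at h2 h0
    have hc1 : c = 1 := by
      apply mul_left_cancel₀ hb'
      linarith
    rw [hc1] at h0
    apply hAB
    have : (A : ℚ) = B := by linarith
    exact_mod_cast this
  refine ⟨fun k => ?_, fun k => ?_, fun k l hkl => ?_⟩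
  · fin_cases k
    · exact irr_quad hb hA
    · exact irr_quad hb hB
  · fin_cases k
    · show Even (C b * X ^ 2 - C A : ℤ[X]).natDegree
      rw [quad_deg hb]; exact even_two
    · show Even (C b * X ^ 2 - C B : ℤ[X]).natDegree
      rw [quad_deg hb]; exact even_two
  · fin_cases k <;> fin_cases l
    · exact absurd rfl hkl
    · exact key A B hAB
    · exact key B A hAB.symm
    · exact absurd rfl hkl

/-- a rational point on the quartic from a root -/
lemma quar_root {A B b : ℤ} (hb : b ≠ 0) (hd : b ∣ A * B) {x : ℚ}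
    (h : (b : ℚ) * x ^ 2 = A ∨ (b : ℚ) * x ^ 2 = B) : Quar ℚ A B b := by
  obtain ⟨c, hc⟩ := hd
  have hb' : (b : ℚ) ≠ 0 := Int.cast_ne_zero.2 hb
  have hc' : (A : ℚ) * B = b * c := by exact_mod_cast congrArg (Int.cast : ℤ → ℚ) hc
  refine ⟨0, x, 1, Or.inr one_ne_zero, ?_⟩
  rw [hc, Int.mul_ediv_cancel_left _ hb]
  apply mul_left_cancel₀ hb'
  push_cast
  have : ((b : ℚ) * x ^ 2 - A) * ((b : ℚ) * x ^ 2 - B) = 0 := by
    rcases h with h | h
    · rw [h, sub_self, zero_mul]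
    · rw [h, sub_self, mul_zero]
  linear_combination -this + hc'

/-- **The coverings and the point of the covering curve** -/
lemma cov_of_sel {A B b : ℤ} (hb : b ≠ 0) (h : Pool.Agent.W262.TW.Sel (fac A B b) b) :
    ∃ d : ℤ, Squarefree d ∧ Cov ℝ A B b d ∧ ∀ (p : ℕ) [Fact p.Prime], Cov ℚ_[p] A B b d := by
  obtain ⟨δ, h1, h2, h3, h4⟩ := h
  obtain ⟨d, t, hd, ht, hdt, -, -⟩ := Pool.Agent.Y212.RZ.exists_sf (δ 0) (h1 0)
  obtain ⟨s, hs⟩ := h2
  rw [Fin.prod_univ_two] at hs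
  have key : ∀ (K : Type) [Field K] [CharZero K], Pool.Agent.W262.TW.HasPt (fac A B b) δ K →
      Cov K A B b d := by
    intro K _ _ hK
    obtain ⟨x, w, h0, hk⟩ := hK
    obtain ⟨y0, k0⟩ := hk 0
    obtain ⟨y1, k1⟩ := hk 1
    have e0 : (b : K) * x ^ 2 - (A : K) * w ^ 2 = (δ 0 : K) * y0 ^ 2 := by
      rw [← homog_fac0 (B := B) hb]; exact k0
    have e1 : (b : K) * x ^ 2 - (B : K) * w ^ 2 = (δ 1 : K) * y1 ^ 2 := by
      rw [← homog_fac1 (A := A) hb]; exact k1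
    have hb' : (b : K) ≠ 0 := Int.cast_ne_zero.2 hb
    have hδ0 : (δ 0 : K) ≠ 0 := Int.cast_ne_zero.2 (h1 0)
    have hdt' : (δ 0 : K) = d * t ^ 2 := by
      exact_mod_cast congrArg (Int.cast : ℤ → K) hdt
    have hs' : (b : K) * (δ 0 * δ 1) = s * s := by
      exact_mod_cast congrArg (Int.cast : ℤ → K) hs
    refine ⟨x, w, t * y0, t * s * y1 / (b * δ 0), h0, ?_, ?_⟩
    · rw [e0, hdt']; ring
    · rw [e1]
      have h5 : (b : K) * d * (t * s * y1 / (b * δ 0)) ^ 2 =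
          (b : K) * (d * t ^ 2) * (s * s) * y1 ^ 2 / (b * δ 0) ^ 2 := by
        rw [div_pow, ← mul_div_assoc]
        congr 1
        ring
      rw [h5, ← hdt', ← hs', eq_div_iff (pow_ne_zero 2 (mul_ne_zero hb' hδ0))]
      ring
  exact ⟨d, hd, key ℝ h3, fun p _ => key ℚ_[p] (h4 p)⟩

/-- **No rational point: no adelic point is orthogonal to the classes.** -/
theorem bm_core {A B b : ℤ} (hA : A ≠ 0) (hB : B ≠ 0) (hAB : A ≠ B) (h : Four A B)
    (hc : (Sel A B).ncard ≤ 4) (hb : Squarefree b) (hd : b ∣ A * B) (hno : ¬ Quar ℚ A B b)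
    (P : AdelicPoint (fac A B b) b) :
    ∃ (k : Fin 2) (q : ℤ), q ≠ 0 ∧ Odd (ram (values P k) q).ncard := by
  by_contra hcon
  push Not at hcon
  have hadm : Admissible (fac A B b) := adm hb.ne_zero hAB
    (fun ⟨x, hx⟩ => hno (quar_root hb.ne_zero hd (Or.inl hx)))
    (fun ⟨x, hx⟩ => hno (quar_root hb.ne_zero hd (Or.inr hx)))
  have hP : Orthogonal P := by
    intro k q hq
    exact Nat.not_odd_iff_even.1 (hcon k q hq)
  obtain ⟨d, h1, h2, h3⟩ := cov_of_sel hb.ne_zero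
    (Pool.Agent.W313.BMX.sel (fac A B b) hadm b hb.ne_zero P hP)
  exact hno (quar_of hb.ne_zero hd (cov_rat hA hB hAB h hc hb h1 h2 h3))

/-- the point of the curve `b y² = ...` of a point of the quartic -/
noncomputable def toPoint {K : Type} [Field K] [CharZero K] {A B b : ℤ} (hb : b ≠ 0)
    (hd : b ∣ A * B) (N M e : K) (ne : M ≠ 0 ∨ e ≠ 0)
    (eq : N ^ 2 = (b : K) * M ^ 4 + ((-(A + B) : ℤ) : K) * M ^ 2 * e ^ 2 +
      ((A * B / b : ℤ) : K) * e ^ 4) : Point (fac A B b) b K where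
  x := M
  w := e
  y := N
  ne := ne
  eq := by
    obtain ⟨c, hc⟩ := hd
    have hc' : (A : K) * B = b * c := by exact_mod_cast congrArg (Int.cast : ℤ → K) hc
    rw [hc, Int.mul_ediv_cancel_left _ hb] at eq
    rw [Fin.prod_univ_two, homog_fac0 hb, homog_fac1 hb, eq]
    push_cast
    linear_combination (-e ^ 4) * hc'

open Classical in
lemma value0 {K : Type} [Field K] {A B b : ℤ} (hb : b ≠ 0) (P : Point (fac A B b) b K) :
    value P 0 = if (b : K) * P.x ^ 2 - A * P.w ^ 2 ≠ 0 then (b : K) * P.x ^ 2 - A * P.w ^ 2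
      else b * ((b : K) * P.x ^ 2 - B * P.w ^ 2) := by
  unfold value
  rw [homog_fac0 hb]
  have : (univ.erase (0 : Fin 2)) = {1} := by decide
  rw [this, prod_singleton, homog_fac1 hb]

open Classical in
lemma value1 {K : Type} [Field K] {A B b : ℤ} (hb : b ≠ 0) (P : Point (fac A B b) b K) :
    value P 1 = if (b : K) * P.x ^ 2 - B * P.w ^ 2 ≠ 0 then (b : K) * P.x ^ 2 - B * P.w ^ 2
      else b * ((b : K) * P.x ^ 2 - A * P.w ^ 2) := by
  unfold value
  rw [homog_fac1 hb]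
  have : (univ.erase (1 : Fin 2)) = {0} := by decide
  rw [this, prod_singleton, homog_fac0 hb]

end Pool.Agent.Q284.FDQ
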