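import Pool.Agent.Q284.ISO.Main
import Pool.Agent.TH231.NO.QumCore
import Pool.Agent.W701.FK.Find
import Pool.Agent.Y212.RZ.Selc2

/-!
# The double coverings of the quartics: local points, rational points and the 2-Selmer group
-/

set_option autoImplicit false

namespace Pool.Agent.Q284.FDQ

open Finset

open Pool.Agent.TH231.NO (Scal scal_real scal_padic)

open Pool.Agent.W307.SE (Loc Sel SelR)

/-- the covering `D_d` of `C_{b₁}` has a point over `K` -/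
def Cov (K : Type) [Field K] (A B b₁ d : ℤ) : Prop := ∃ M e x y : K, (M ≠ 0 ∨ e ≠ 0) ∧
  (b₁ : K) * M ^ 2 - (A : K) * e ^ 2 = (d : K) * x ^ 2 ∧
  (b₁ : K) * M ^ 2 - (B : K) * e ^ 2 = (b₁ : K) * d * y ^ 2

/-- the quartic `C_{b₁}` has a point over `K` -/
def Quar (K : Type) [Field K] (A B b₁ : ℤ) : Prop := ∃ N M e : K, (M ≠ 0 ∨ e ≠ 0) ∧
  N ^ 2 = (b₁ : K) * M ^ 4 + ((-(A + B) : ℤ) : K) * M ^ 2 * e ^ 2 +
    ((A * B / b₁ : ℤ) : K) * e ^ 4

/-- the dual quartic has a point over `K` -/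
def Dual (K : Type) [Field K] (A B d : ℤ) : Prop := ∃ N M e : K, (M ≠ 0 ∨ e ≠ 0) ∧
  N ^ 2 = (d : K) * M ^ 4 + ((2 * (A + B) : ℤ) : K) * M ^ 2 * e ^ 2 +
    (((A - B) ^ 2 / d : ℤ) : K) * e ^ 4

/-! the next lemma is `Pool.Agent.TH841.FD.COVLf.core` (helper324 for helper841) -/

lemma core {K : Type} [Field K] [CharZero K] (H : Scal K) (A B : ℤ) (b d : K)
    (hA : A ≠ 0) (hB : B ≠ 0) (hAB : A ≠ B) (hb : b ≠ 0) (hd : d ≠ 0)
    (h : ∃ M e x y : K, (M ≠ 0 ∨ e ≠ 0) ∧ b * M ^ 2 - (A : K) * e ^ 2 = d * x ^ 2 ∧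
      b * M ^ 2 - (B : K) * e ^ 2 = b * d * y ^ 2) :
    ∃ X Y : K, Y ≠ 0 ∧ Y ^ 2 = X * (X - A) * (X - B) ∧ IsSquare (X * b) ∧
      IsSquare ((X - A) * d) := by
  obtain ⟨M, e, x, y, hMe, h1, h2⟩ := h
  have hα : (A : K) ≠ 0 := Int.cast_ne_zero.2 hA
  have hβ : (B : K) ≠ 0 := Int.cast_ne_zero.2 hB
  have hD : (A : K) - (B : K) ≠ 0 := sub_ne_zero.2 (Int.cast_injective.ne hAB)
  by_cases he : e = 0
  · have hM : M ≠ 0 := hMe.resolve_right (not_not.2 he)
    rw [he] at h1 h2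
    have h3 : M ^ 2 = d * y ^ 2 := by
      apply mul_left_cancel₀ hb
      linear_combination h2
    have hy : y ≠ 0 := by
      rintro rfl
      apply pow_ne_zero 2 hM
      rw [h3]
      ring
    have hds : d = (M / y) ^ 2 := by
      rw [div_pow, eq_div_iff (pow_ne_zero 2 hy)]
      exact h3.symm
    have hbs : b = (x / y) ^ 2 := by
      rw [div_pow, eq_div_iff (pow_ne_zero 2 hy)]
      apply mul_left_cancel₀ hd
      linear_combination h1 - b * h3
    obtain ⟨u, hu, hr⟩ := H {A, B}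
    obtain ⟨r, hr0, hr1⟩ := hr A (by simp)
    obtain ⟨s, hs0, hs1⟩ := hr B (by simp)
    have e1 : (1 / u ^ 2 - (A : K)) = (r / u) ^ 2 := by
      rw [div_pow, hr1]
      field_simp
    have e2 : (1 / u ^ 2 - (B : K)) = (s / u) ^ 2 := by
      rw [div_pow, hs1]
      field_simp
    refine ⟨1 / u ^ 2, 1 / u * (r / u) * (s / u), ?_, ?_, ⟨1 / u * (x / y), ?_⟩,
      ⟨r / u * (M / y), ?_⟩⟩
    · exact mul_ne_zero (mul_ne_zero (one_div_ne_zero hu) (div_ne_zero hr0 hu))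
        (div_ne_zero hs0 hu)
    · rw [e1, e2]
      ring
    · rw [hbs]
      ring
    · rw [e1, hds]
      ring
  -- the affine coordinates
  obtain ⟨m, hm⟩ : ∃ m, m = M / e := ⟨_, rfl⟩
  obtain ⟨v, hv⟩ : ∃ v, v = x / e := ⟨_, rfl⟩
  obtain ⟨w, hw⟩ : ∃ w, w = y / e := ⟨_, rfl⟩
  have k1 : b * m ^ 2 - (A : K) = d * v ^ 2 := by
    rw [hm, hv, div_pow, div_pow]
    field_simp
    linear_combination h1
  have k2 : b * m ^ 2 - (B : K) = b * d * w ^ 2 := by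
    rw [hm, hw, div_pow, div_pow]
    field_simp
    linear_combination h2
  clear h1 h2 hm hv hw hMe he
  by_cases hm0 : m = 0
  · -- points near `(0, 0)`
    rw [hm0] at k1 k2
    have hv0 : v ≠ 0 := by
      rintro rfl
      apply hα
      linear_combination -k1
    have hw0 : w ≠ 0 := by
      rintro rfl
      apply hβ
      linear_combination -k2
    obtain ⟨u, hu, hr⟩ := H {A, B}
    obtain ⟨t, ht0, ht1⟩ := hr A (by simp)
    obtain ⟨s, hs0, hs1⟩ := hr B (by simp)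
    have eA : (A : K) = -(d * v ^ 2) := by linear_combination -k1
    have eB : (B : K) = -(b * d * w ^ 2) := by linear_combination -k2
    have eX : (A : K) * B * u ^ 2 = b * (d * v * w * u) ^ 2 := by
      rw [eA, eB]
      ring
    have eXA : (A : K) * B * u ^ 2 - A = d * (v * s) ^ 2 := by
      rw [mul_pow, hs1]
      linear_combination k1 - (B : K) * u ^ 2 * k1
    have eXB : (A : K) * B * u ^ 2 - B = b * d * (w * t) ^ 2 := by
      rw [mul_pow, ht1]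
      linear_combination k2 - (A : K) * u ^ 2 * k2
    refine ⟨(A : K) * B * u ^ 2, b * d * (d * v * w * u) * (v * s) * (w * t), ?_, ?_,
      ⟨b * (d * v * w * u), ?_⟩, ⟨d * (v * s), ?_⟩⟩
    · exact mul_ne_zero (mul_ne_zero (mul_ne_zero (mul_ne_zero hb hd) (mul_ne_zero (mul_ne_zero
        (mul_ne_zero hd hv0) hw0) hu)) (mul_ne_zero hv0 hs0)) (mul_ne_zero hw0 ht0)
    · rw [eXA, eXB, eX]
      ring
    · rw [eX]
      ring
    · rw [eXA]
      ring
  by_cases hv0 : v = 0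
  · -- points near `(A, 0)`
    rw [hv0] at k1
    have eA : (A : K) = b * m ^ 2 := by linear_combination -k1
    have eAB : (A : K) - B = b * d * w ^ 2 := by linear_combination k2 - k1
    obtain ⟨u, hu, hr⟩ := H {B - A, -A}
    obtain ⟨s, hs0, hs1⟩ := hr (B - A) (by simp)
    obtain ⟨t, ht0, ht1⟩ := hr (-A) (by simp)
    push_cast at hs1 ht1
    have eX : (A : K) + A * (A - B) * u ^ 2 = A * s ^ 2 := by
      rw [hs1]
      ring
    have eXB : (A : K) + A * (A - B) * u ^ 2 - B = (A - B) * t ^ 2 := by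
      rw [ht1]
      ring
    refine ⟨(A : K) + A * (A - B) * u ^ 2, A * (A - B) * s * u * t, ?_, ?_, ⟨b * m * s, ?_⟩,
      ⟨b * m * d * w * u, ?_⟩⟩
    · exact mul_ne_zero (mul_ne_zero (mul_ne_zero (mul_ne_zero hα hD) hs0) hu) ht0
    · rw [eXB, show (A : K) + A * (A - B) * u ^ 2 - A = A * (A - B) * u ^ 2 by ring, eX]
      ring
    · rw [eX, eA]
      ring
    · rw [show (A : K) + A * (A - B) * u ^ 2 - A = A * (A - B) * u ^ 2 by ring, eAB, eA]
      ring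
  by_cases hw0 : w = 0
  · -- points near `(B, 0)`
    rw [hw0] at k2
    have eB : (B : K) = b * m ^ 2 := by linear_combination -k2
    have eBA : (B : K) - A = d * v ^ 2 := by linear_combination k1 - k2
    have hD' : (B : K) - A ≠ 0 := by
      intro h0
      apply hD
      linear_combination -h0
    obtain ⟨u, hu, hr⟩ := H {A - B, -B}
    obtain ⟨s, hs0, hs1⟩ := hr (A - B) (by simp)
    obtain ⟨t, ht0, ht1⟩ := hr (-B) (by simp)
    push_cast at hs1 ht1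
    have eX : (B : K) + B * (B - A) * u ^ 2 = B * s ^ 2 := by
      rw [hs1]
      ring
    have eXA : (B : K) + B * (B - A) * u ^ 2 - A = (B - A) * t ^ 2 := by
      rw [ht1]
      ring
    refine ⟨(B : K) + B * (B - A) * u ^ 2, B * (B - A) * s * u * t, ?_, ?_, ⟨b * m * s, ?_⟩,
      ⟨d * v * t, ?_⟩⟩
    · exact mul_ne_zero (mul_ne_zero (mul_ne_zero (mul_ne_zero hβ hD') hs0) hu) ht0
    · rw [eXA, show (B : K) + B * (B - A) * u ^ 2 - B = B * (B - A) * u ^ 2 by ring, eX]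
      ring
    · rw [eX, eB]
      ring
    · rw [eXA, eBA]
      ring
  -- the generic case
  refine ⟨b * m ^ 2, b * d * m * v * w, ?_, ?_, ⟨b * m, ?_⟩, ⟨d * v, ?_⟩⟩
  · exact mul_ne_zero (mul_ne_zero (mul_ne_zero (mul_ne_zero hb hd) hm0) hv0) hw0
  · rw [k1, k2]
    ring
  · ring
  · rw [k1]
    ring


lemma loc_of {K : Type} [Field K] [CharZero K] (H : Scal K) {A B b₁ d : ℤ} (hA : A ≠ 0)
    (hB : B ≠ 0) (hAB : A ≠ B) (hb : b₁ ≠ 0) (hd : d ≠ 0) (h : Cov K A B b₁ d) :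
    Loc K A B b₁ d :=
  core H A B (b₁ : K) (d : K) hA hB hAB (Int.cast_ne_zero.2 hb) (Int.cast_ne_zero.2 hd) h

/-- everywhere locally solvable coverings and the 2-Selmer group -/
lemma sel_of {A B b₁ d : ℤ} (hA : A ≠ 0) (hB : B ≠ 0) (hAB : A ≠ B) (hb : Squarefree b₁)
    (hd : Squarefree d) (hR : Cov ℝ A B b₁ d)
    (hp : ∀ (p : ℕ) [Fact p.Prime], Cov ℚ_[p] A B b₁ d) : (b₁, d) ∈ Sel A B :=
  ⟨hb, hd, loc_of scal_real hA hB hAB hb.ne_zero hd.ne_zero hR,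
    fun p _ => loc_of (scal_padic p) hA hB hAB hb.ne_zero hd.ne_zero (hp p)⟩

/-- base change -/
lemma cov_cast {K : Type} [Field K] [CharZero K] {A B b₁ d : ℤ} (h : Cov ℚ A B b₁ d) :
    Cov K A B b₁ d := by
  obtain ⟨M, e, x, y, h0, h1, h2⟩ := h
  refine ⟨(M : K), (e : K), (x : K), (y : K), ?_, ?_, ?_⟩
  · rcases h0 with h | h
    · exact Or.inl (Rat.cast_ne_zero.2 h)
    · exact Or.inr (Rat.cast_ne_zero.2 h)
  · exact_mod_cast congrArg (Rat.cast : ℚ → K) h1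
  · exact_mod_cast congrArg (Rat.cast : ℚ → K) h2

lemma sel_rat {A B b₁ d : ℤ} (hA : A ≠ 0) (hB : B ≠ 0) (hAB : A ≠ B) (hb : Squarefree b₁)
    (hd : Squarefree d) (h : Cov ℚ A B b₁ d) : (b₁, d) ∈ Sel A B :=
  sel_of hA hB hAB hb hd (cov_cast h) fun _ _ => cov_cast h

/-- a point of a covering gives a point of the quartic -/
lemma quar_of {K : Type} [Field K] [CharZero K] {A B b₁ d : ℤ} (hb : b₁ ≠ 0) (hd : b₁ ∣ A * B)
    (h : Cov K A B b₁ d) : Quar K A B b₁ := by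
  obtain ⟨M, e, x, y, h0, h1, h2⟩ := h
  obtain ⟨c, hc⟩ := hd
  have hb' : (b₁ : K) ≠ 0 := Int.cast_ne_zero.2 hb
  have hc' : (A : K) * B = b₁ * c := by exact_mod_cast congrArg (Int.cast : ℤ → K) hc
  refine ⟨d * x * y, M, e, h0, ?_⟩
  rw [hc, Int.mul_ediv_cancel_left _ hb]
  apply mul_left_cancel₀ hb'
  push_cast
  have e1 : (b₁ : K) * (d * x * y) ^ 2 = (d * x ^ 2) * (b₁ * d * y ^ 2) := by ring
  rw [e1, ← h1, ← h2]
  linear_combination (e ^ 4) * hc'

/-- a rational point of the quartic lifts to a covering -/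
lemma cov_of_quar {A B b₁ : ℤ} (hAB : A ≠ B) (hb : b₁ ≠ 0) (hd : b₁ ∣ A * B)
    (h : Quar ℚ A B b₁) : ∃ d : ℤ, Squarefree d ∧ Cov ℚ A B b₁ d := by
  obtain ⟨N, M, e, h0, h1⟩ := h
  obtain ⟨c, hc⟩ := hd
  have hb' : (b₁ : ℚ) ≠ 0 := Int.cast_ne_zero.2 hb
  have hc' : (A : ℚ) * B = b₁ * c := by exact_mod_cast congrArg (Int.cast : ℤ → ℚ) hc
  rw [hc, Int.mul_ediv_cancel_left _ hb] at h1
  push_cast at h1
  have h2 : (b₁ : ℚ) * N ^ 2 = (b₁ * M ^ 2 - A * e ^ 2) * (b₁ * M ^ 2 - B * e ^ 2) := by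
    rw [h1]
    linear_combination (-e ^ 4) * hc'
  by_cases hz : (b₁ : ℚ) * M ^ 2 - A * e ^ 2 = 0
  · have he : e ≠ 0 := by
      rintro rfl
      have : (b₁ : ℚ) * M ^ 2 = 0 := by linear_combination hz
      have hM : M = 0 := by
        rcases mul_eq_zero.1 this with h | h
        · exact absurd h hb'
        · exact pow_eq_zero_iff two_ne_zero |>.1 h
      exact h0.elim (fun h => h hM) (fun h => h rfl)
    obtain ⟨d, t, hsd, ht, hdt, -, -⟩ := Pool.Agent.Y212.RZ.exists_sf (b₁ * (A - B))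
      (mul_ne_zero hb (sub_ne_zero.2 hAB))
    have hdt' : (b₁ : ℚ) * (A - B) = d * t ^ 2 := by
      exact_mod_cast congrArg (Int.cast : ℤ → ℚ) hdt
    have ht' : (t : ℚ) ≠ 0 := Int.cast_ne_zero.2 ht
    refine ⟨d, hsd, M, e, 0, t * e / b₁, h0, ?_, ?_⟩
    · rw [hz]; ring
    · field_simp
      linear_combination (b₁ : ℚ) * hz + e ^ 2 * hdt'
  · obtain ⟨d, hsd, r, hr⟩ := Pool.Agent.W214.RK2.exists_rep _ hz
    have hd0 : (d : ℚ) ≠ 0 := Int.cast_ne_zero.2 hsd.ne_zero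
    have hr0 : r ≠ 0 := by
      rintro rfl
      rw [mul_zero] at hr
      exact (mul_ne_zero hz hd0) hr
    refine ⟨d, hsd, M, e, r / d, N / r, h0, ?_, ?_⟩
    · field_simp
      linear_combination hr
    · rw [div_pow, ← mul_div_assoc, eq_div_iff (pow_ne_zero 2 hr0)]
      linear_combination (-((b₁ : ℚ) * M ^ 2 - B * e ^ 2)) * hr - (d : ℚ) * h2

end Pool.Agent.Q284.FDQ
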