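import Pool.Agent.Q284.FDQ.Two

/-!
# Adelic points orthogonal to the classes `(x - e, q)`
-/

set_option autoImplicit false

open WeierstrassCurve

namespace Pool.Agent.Q284.FDQ

open Pool.Agent.H437R2.Man.MW (crv crv_eqn crv_nonsing)

open Pool.Agent.W307.SE (Sel Loc)

open Pool.Agent.W313.BMX (Fam ram)

section

variable {K : Type} [Field K]

/-- a point whose classes are given is a point of the covering -/
lemma cov_of_vl {W : WeierstrassCurve K} {e1 e2 e3 b d : ℤ}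
    (hW : W = crv (-(e1 : K)) (-(e2 : K)) (-(e3 : K))) (hb : (b : K) ≠ 0) (hd : (d : K) ≠ 0)
    (h12 : (e1 : K) ≠ e2) (P : W.toAffine.Point)
    (s1 : IsSquare (vl P (e1 : K) ((e1 - e2) * (e1 - e3)) * b))
    (s2 : IsSquare (vl P (e2 : K) ((e2 - e1) * (e2 - e3)) * d)) :
    Cov K (e2 - e1) (e3 - e1) b d := by
  obtain ⟨s, hs⟩ := s1
  obtain ⟨t, ht⟩ := s2
  have hA : (e2 : K) - e1 ≠ 0 := sub_ne_zero.2 h12.symm
  rcases P with _ | ⟨x, y, h⟩
  · change 1 * (b : K) = s * s at hs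
    change 1 * (d : K) = t * t at ht
    have hs0 : s ≠ 0 := by
      rintro rfl
      apply hb
      linear_combination hs
    have ht0 : t ≠ 0 := by
      rintro rfl
      apply hd
      linear_combination ht
    refine ⟨1, 0, s / t, 1 / t, Or.inl one_ne_zero, ?_, ?_⟩
    · push_cast
      rw [div_pow, pow_two s, pow_two t, ← hs, ← ht]
      field_simp
      ring
    · push_cast
      rw [div_pow, pow_two t, ← ht]
      field_simp
      ring
  · have e : y ^ 2 = (x - e1) * (x - e2) * (x - e3) := by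
      have h1 := h.1
      rw [hW] at h1
      have := crv_eqn.mp h1
      linear_combination this
    by_cases h1 : x - (e1 : K) = 0
    · have hx : x = e1 := sub_eq_zero.1 h1
      have h2 : x - (e2 : K) ≠ 0 := by rw [hx]; exact sub_ne_zero.2 h12
      rw [vl_root h _ _ h1] at hs
      rw [vl_some h _ _ h2, hx] at ht
      refine ⟨0, 1, t / d, s * t / (b * d * (e2 - e1)), Or.inr one_ne_zero, ?_, ?_⟩
      · push_cast
        rw [div_pow, pow_two t, ← ht]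
        field_simp
        ring
      · push_cast
        have e4 : (s * t / (b * d * (e2 - e1))) ^ 2 = (s * s) * (t * t) /
          ((b : K) * d * (e2 - e1)) ^ 2 := by rw [div_pow]; ring
        rw [e4, ← hs, ← ht]
        field_simp
        ring
    · rw [vl_some h _ _ h1] at hs
      have hs0 : s ≠ 0 := by
        rintro rfl
        exact (mul_ne_zero h1 hb) (by rw [hs, mul_zero])
      have eM : (b : K) * (s / b) ^ 2 = x - e1 := by
        rw [div_pow, pow_two s, ← hs]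
        field_simp
      by_cases h2 : x - (e2 : K) = 0
      · have hx : x = e2 := sub_eq_zero.1 h2
        rw [vl_root h _ _ h2] at ht
        refine ⟨s / b, 1, 0, t / (d * s), Or.inr one_ne_zero, ?_, ?_⟩
        · push_cast
          rw [eM, hx]
          ring
        · push_cast
          rw [eM]
          have e4 : (t / (d * s)) ^ 2 = (t * t) / ((d : K) ^ 2 * (s * s)) := by
            rw [div_pow]; ring
          rw [e4, ← hs, ← ht, hx]
          field_simp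
          ring
      · rw [vl_some h _ _ h2] at ht
        have ht0 : t ≠ 0 := by
          rintro rfl
          exact (mul_ne_zero h2 hd) (by rw [ht, mul_zero])
        have eX : (d : K) * (t / d) ^ 2 = x - e2 := by
          rw [div_pow, pow_two t, ← ht]
          field_simp
        refine ⟨s / b, 1, t / d, y / (s * t), Or.inr one_ne_zero, ?_, ?_⟩
        · push_cast
          rw [eM, eX]
          ring
        · push_cast
          rw [eM]
          have e4 : (y / (s * t)) ^ 2 = y ^ 2 / ((s * s) * (t * t)) := by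
            rw [div_pow]; ring
          rw [e4, ← hs, ← ht, e]
          field_simp
          ring

lemma vl_ne {W : WeierstrassCurve K} (P : W.toAffine.Point) {e c : K} (hc : c ≠ 0) :
    vl P e c ≠ 0 := by
  rcases P with _ | ⟨x, y, h⟩
  · exact one_ne_zero
  · by_cases hx : x - e = 0
    · rw [vl_root h _ _ hx]; exact hc
    · rw [vl_some h _ _ hx]; exact hx

/-- the product of the three values is a square -/
lemma vl_prod {W : WeierstrassCurve K} {e1 e2 e3 : K} (hW : W = crv (-e1) (-e2) (-e3))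
    (h12 : e1 ≠ e2) (h13 : e1 ≠ e3) (h23 : e2 ≠ e3) (P : W.toAffine.Point) :
    IsSquare (vl P e1 ((e1 - e2) * (e1 - e3)) * vl P e2 ((e2 - e1) * (e2 - e3)) *
      vl P e3 ((e3 - e1) * (e3 - e2))) := by
  rcases P with _ | ⟨x, y, h⟩
  · change IsSquare ((1 : K) * 1 * 1)
    exact ⟨1, by ring⟩
  · have e : y ^ 2 = (x - e1) * (x - e2) * (x - e3) := by
      have h1 := h.1
      rw [hW] at h1
      have := crv_eqn.mp h1
      linear_combination this
    by_cases h1 : x - e1 = 0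
    · have hx : x = e1 := sub_eq_zero.1 h1
      rw [vl_root h _ _ h1, vl_some h _ _ (by rw [hx]; exact sub_ne_zero.2 h12),
        vl_some h _ _ (by rw [hx]; exact sub_ne_zero.2 h13), hx]
      exact ⟨(e1 - e2) * (e1 - e3), by ring⟩
    · by_cases h2 : x - e2 = 0
      · have hx : x = e2 := sub_eq_zero.1 h2
        rw [vl_some h _ _ h1, vl_root h _ _ h2,
          vl_some h _ _ (by rw [hx]; exact sub_ne_zero.2 h23), hx]
        exact ⟨(e2 - e1) * (e2 - e3), by ring⟩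
      · by_cases h3 : x - e3 = 0
        · have hx : x = e3 := sub_eq_zero.1 h3
          rw [vl_some h _ _ h1, vl_some h _ _ h2, vl_root h _ _ h3, hx]
          exact ⟨(e3 - e1) * (e3 - e2), by ring⟩
        · rw [vl_some h _ _ h1, vl_some h _ _ h2, vl_some h _ _ h3]
          exact ⟨y, by linear_combination -e⟩

/-- squares of products -/
lemma sq_comb {v w b : K} (hb : b ≠ 0) (h1 : IsSquare (v * b)) (h2 : IsSquare (w * b)) :
    IsSquare (v * w) := by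
  obtain ⟨r, hr⟩ := h1
  obtain ⟨s, hs⟩ := h2
  refine ⟨r * s / b, ?_⟩
  field_simp
  linear_combination (w * b) * hr + r * r * hs

lemma sq_third {v1 v2 v3 w1 w2 w3 : K} (hv1 : v1 ≠ 0) (hv2 : v2 ≠ 0) (hw1 : w1 ≠ 0)
    (hw2 : w2 ≠ 0) (h1 : IsSquare (v1 * w1)) (h2 : IsSquare (v2 * w2))
    (hv : IsSquare (v1 * v2 * v3)) (hw : IsSquare (w1 * w2 * w3)) : IsSquare (v3 * w3) := by
  obtain ⟨r, hr⟩ := h1
  obtain ⟨s, hs⟩ := h2
  obtain ⟨t, ht⟩ := hv
  obtain ⟨u, hu⟩ := hw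
  refine ⟨t * u * r * s / (v1 * v2 * w1 * w2), ?_⟩
  have h0 : v1 * v2 * w1 * w2 ≠ 0 := mul_ne_zero (mul_ne_zero (mul_ne_zero hv1 hv2) hw1) hw2
  rw [div_mul_div_comm, eq_div_iff (mul_ne_zero h0 h0)]
  have e1 : t * u * r * s * (t * u * r * s) = (t * t) * (u * u) * (r * r) * (s * s) := by ring
  rw [e1, ← hr, ← hs, ← ht, ← hu]
  ring

end

/-- the rational point of a covering with rational points -/
lemma point_of_cov {W : WeierstrassCurve ℚ} {e1 e2 e3 b d : ℤ}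
    (hW : W = crv (-(e1 : ℚ)) (-(e2 : ℚ)) (-(e3 : ℚ))) (hb : b ≠ 0) (hd : d ≠ 0)
    (h12 : e1 ≠ e2) (h13 : e1 ≠ e3) (h23 : e2 ≠ e3) (h : Cov ℚ (e2 - e1) (e3 - e1) b d) :
    ∃ Q : W.toAffine.Point, IsSquare (vl Q (e1 : ℚ) ((e1 - e2) * (e1 - e3)) * b) ∧
      IsSquare (vl Q (e2 : ℚ) ((e2 - e1) * (e2 - e3)) * d) := by
  obtain ⟨M, e, x, y, h0, h1, h2⟩ := h
  push_cast at h1 h2
  have hb' : (b : ℚ) ≠ 0 := Int.cast_ne_zero.2 hb
  have hd' : (d : ℚ) ≠ 0 := Int.cast_ne_zero.2 hd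
  by_cases he : e = 0
  · have hM : M ≠ 0 := h0.resolve_right (not_not.2 he)
    rw [he] at h1 h2
    have hy : y ≠ 0 := by
      rintro rfl
      have : (b : ℚ) * M ^ 2 = 0 := by linear_combination h2
      exact mul_ne_zero hb' (pow_ne_zero 2 hM) this
    have e3 : M ^ 2 = d * y ^ 2 := by
      apply mul_left_cancel₀ hb'
      linear_combination h2
    refine ⟨0, ⟨x / y, ?_⟩, ⟨M / y, ?_⟩⟩
    · rw [vl_zero]
      field_simp
      apply mul_left_cancel₀ hd'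
      linear_combination h1 - (b : ℚ) * e3
    · rw [vl_zero]
      field_simp
      linear_combination -e3
  · have hns : W.toAffine.Nonsingular ((e1 : ℚ) + b * M ^ 2 / e ^ 2)
        (b * d * M * x * y / e ^ 3) := by
      rw [hW]
      apply crv_nonsing
      · intro h; exact h12 (by exact_mod_cast neg_injective h)
      · intro h; exact h13 (by exact_mod_cast neg_injective h)
      · intro h; exact h23 (by exact_mod_cast neg_injective h)
      · have g1 : (e1 : ℚ) + b * M ^ 2 / e ^ 2 + -(e1 : ℚ) = b * M ^ 2 / e ^ 2 := by ring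
        have g2 : (e1 : ℚ) + b * M ^ 2 / e ^ 2 + -(e2 : ℚ) = d * x ^ 2 / e ^ 2 := by
          rw [← h1]; field_simp; ring
        have g3 : (e1 : ℚ) + b * M ^ 2 / e ^ 2 + -(e3 : ℚ) = b * d * y ^ 2 / e ^ 2 := by
          rw [← h2]; field_simp; ring
        rw [g1, g2, g3]
        field_simp
    have g1 : (e1 : ℚ) + b * M ^ 2 / e ^ 2 - (e1 : ℚ) = b * M ^ 2 / e ^ 2 := by ring
    have g2 : (e1 : ℚ) + b * M ^ 2 / e ^ 2 - (e2 : ℚ) = d * x ^ 2 / e ^ 2 := by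
      rw [← h1]; field_simp; ring
    refine ⟨Affine.Point.some _ _ hns, ?_, ?_⟩
    · by_cases hM : M = 0
      · rw [vl_root hns _ _ (by rw [g1, hM]; ring)]
        rw [hM] at h1 h2
        refine ⟨b * d * x * y / e ^ 2, ?_⟩
        have k1 : ((e1 : ℚ) - e2) = d * x ^ 2 / e ^ 2 := by
          rw [← h1]; field_simp; ring
        have k2 : ((e1 : ℚ) - e3) = b * d * y ^ 2 / e ^ 2 := by
          rw [← h2]; field_simp; ring
        rw [k1, k2]
        field_simp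
      · have g4 : (e1 : ℚ) + b * M ^ 2 / e ^ 2 - (e1 : ℚ) ≠ 0 := by
          rw [g1]
          exact div_ne_zero (mul_ne_zero hb' (pow_ne_zero 2 hM)) (pow_ne_zero 2 he)
        rw [vl_some hns _ _ g4, g1]
        exact ⟨b * M / e, by field_simp⟩
    · by_cases hx : x = 0
      · rw [vl_root hns _ _ (by rw [g2, hx]; ring)]
        rw [hx] at h1
        have k1 : ((e2 : ℚ) - e1) = b * M ^ 2 / e ^ 2 := by
          rw [eq_div_iff (pow_ne_zero 2 he)]
          linear_combination -h1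
        have k2 : ((e2 : ℚ) - e3) = b * d * y ^ 2 / e ^ 2 := by
          rw [eq_div_iff (pow_ne_zero 2 he)]
          linear_combination h2 - h1
        refine ⟨b * d * M * y / e ^ 2, ?_⟩
        rw [k1, k2]
        field_simp
      · have g4 : (e1 : ℚ) + b * M ^ 2 / e ^ 2 - (e2 : ℚ) ≠ 0 := by
          rw [g2]
          exact div_ne_zero (mul_ne_zero hd' (pow_ne_zero 2 hx)) (pow_ne_zero 2 he)
        rw [vl_some hns _ _ g4, g2]
        exact ⟨d * x / e, by field_simp⟩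

/-- squarefree representatives of the classes -/
lemma padic_rep {p : ℕ} [Fact p.Prime] {v : ℚ_[p]} (hv : v ≠ 0) :
    ∃ d : ℤ, Squarefree d ∧ ∃ s : ℚ_[p], s ≠ 0 ∧ v * d = s * s := by
  obtain ⟨t, m, c, ht, hm, hc, he⟩ := Pool.Agent.W310.BMX.odd4 p v hv
  have hp0 : (p : ℤ) ≠ 0 := Int.natCast_ne_zero.2 (Fact.out : p.Prime).ne_zero
  have hm0 : m ≠ 0 := fun h => hm (h ▸ dvd_zero _)
  obtain ⟨d, s, hd, hs, hds, -, -⟩ := Pool.Agent.Y212.RZ.exists_sf ((p : ℤ) ^ t * m)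
    (mul_ne_zero (pow_ne_zero _ hp0) hm0)
  have hds' : (((p : ℤ) ^ t * m : ℤ) : ℚ_[p]) = d * s ^ 2 := by
    exact_mod_cast congrArg (Int.cast : ℤ → ℚ_[p]) hds
  have hs' : (s : ℚ_[p]) ≠ 0 := Int.cast_ne_zero.2 hs
  have hd' : (d : ℚ_[p]) ≠ 0 := Int.cast_ne_zero.2 hd.ne_zero
  refine ⟨d, hd, d * s * c, mul_ne_zero (mul_ne_zero hd' hs') hc, ?_⟩
  have he' : v = (((p : ℤ) ^ t * m : ℤ) : ℚ_[p]) * c ^ 2 := by
    rw [he]
  rw [he', hds']
  ring

/-- the values of `x - e` have even valuation at the primes of good reduction -/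
lemma fin_vl {p : ℕ} [Fact p.Prime] {W : WeierstrassCurve ℚ_[p]} {e1 e2 e3 : ℤ}
    (hW : W = crv (-(e1 : ℚ_[p])) (-(e2 : ℚ_[p])) (-(e3 : ℚ_[p])))
    (h12 : e1 ≠ e2) (h13 : e1 ≠ e3) (h23 : e2 ≠ e3)
    (hp : ¬ (p : ℤ) ∣ 2 * (e2 - e1) * (e3 - e1) * ((e2 - e1) - (e3 - e1)))
    (P : W.toAffine.Point) :
    (∃ (m : ℤ) (c : ℚ_[p]), ¬ (p : ℤ) ∣ m ∧ c ≠ 0 ∧
      vl P (e1 : ℚ_[p]) ((e1 - e2) * (e1 - e3)) = m * c ^ 2) ∧
    ∃ (m : ℤ) (c : ℚ_[p]), ¬ (p : ℤ) ∣ m ∧ c ≠ 0 ∧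
      vl P (e2 : ℚ_[p]) ((e2 - e1) * (e2 - e3)) = m * c ^ 2 := by
  have c12 : (e1 : ℚ_[p]) ≠ e2 := fun h => h12 (by exact_mod_cast h)
  have c13 : (e1 : ℚ_[p]) ≠ e3 := fun h => h13 (by exact_mod_cast h)
  have c23 : (e2 : ℚ_[p]) ≠ e3 := fun h => h23 (by exact_mod_cast h)
  obtain ⟨d1, hd1, s1, hs1, k1⟩ := padic_rep (vl_ne P (e := (e1 : ℚ_[p]))
    (mul_ne_zero (sub_ne_zero.2 c12) (sub_ne_zero.2 c13)))
  obtain ⟨d2, hd2, s2, hs2, k2⟩ := padic_rep (vl_ne P (e := (e2 : ℚ_[p]))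
    (mul_ne_zero (sub_ne_zero.2 c12.symm) (sub_ne_zero.2 c23)))
  have hd1' : (d1 : ℚ_[p]) ≠ 0 := Int.cast_ne_zero.2 hd1.ne_zero
  have hd2' : (d2 : ℚ_[p]) ≠ 0 := Int.cast_ne_zero.2 hd2.ne_zero
  have hcov := cov_of_vl hW hd1' hd2' c12 P ⟨s1, k1⟩ ⟨s2, k2⟩
  have hloc := loc_of (Pool.Agent.TH231.NO.scal_padic p) (sub_ne_zero.2 h12.symm)
    (sub_ne_zero.2 h13.symm) (fun h => h23 (by linarith)) hd1.ne_zero hd2.ne_zero hcov
  obtain ⟨g1, g2⟩ := Pool.Agent.W405.SE.goodp_of Pool.Agent.W407.SE.ratp p (e2 - e1) (e3 - e1)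
    d1 d2 hp hd1 hd2 hloc
  refine ⟨⟨d1, s1 / d1, g1, div_ne_zero hs1 hd1', ?_⟩, ⟨d2, s2 / d2, g2,
    div_ne_zero hs2 hd2', ?_⟩⟩
  · rw [div_pow, pow_two s1, ← k1]
    field_simp
  · rw [div_pow, pow_two s2, ← k2]
    field_simp

/-- the curve over the integers -/
def WZ (A B : ℤ) : WeierstrassCurve.Affine ℤ := ⟨0, 0, 0, A, B⟩

lemma WZ_eq {A B e1 e2 e3 : ℤ} (h : ∀ x : ℤ, x ^ 3 + A * x + B = (x - e1) * (x - e2) * (x - e3))
    (K : Type) [Field K] :
    (WZ A B).baseChange K = crv (-(e1 : K)) (-(e2 : K)) (-(e3 : K)) := by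
  obtain ⟨hs, hA, hB⟩ := Pool.Agent.W402.FK.coef A B e1 e2 e3 h
  have hs' : (e1 : K) + e2 + e3 = 0 := by exact_mod_cast congrArg (Int.cast : ℤ → K) hs
  apply WeierstrassCurve.ext
  · exact map_zero (algebraMap ℤ K)
  · show algebraMap ℤ K 0 = -(e1 : K) + -(e2 : K) + -(e3 : K)
    rw [map_zero]
    linear_combination hs'
  · exact map_zero (algebraMap ℤ K)
  · show algebraMap ℤ K A = -(e1 : K) * -(e2 : K) + -(e1 : K) * -(e3 : K) + -(e2 : K) * -(e3 : K)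
    rw [eq_intCast, hA]
    push_cast
    ring
  · show algebraMap ℤ K B = -(e1 : K) * -(e2 : K) * -(e3 : K)
    rw [eq_intCast, hB]
    push_cast
    ring

open Classical in
lemma vl_map {K : Type} [Field K] [CharZero K] [Algebra ℚ K] {A B : ℤ} (Q : ((WZ A B).baseChange ℚ).Point)
    (e c : ℤ) : vl (W := (WZ A B).baseChange K) (Affine.Point.baseChange ℚ K Q) (e : K) (c : K) =
      ((vl (W := (WZ A B).baseChange ℚ) Q (e : ℚ) (c : ℚ) : ℚ) : K) := by
  rcases Q with _ | ⟨x, y, h⟩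
  · show (1 : K) = ((1 : ℚ) : K)
    norm_num
  · have hx : (Algebra.ofId ℚ K) x = (x : K) := eq_ratCast _ x
    have hm : Affine.Point.baseChange ℚ K (Affine.Point.some x y h : ((WZ A B).baseChange ℚ).Point)
        = Affine.Point.some _ _
          (((WZ A B).baseChange_nonsingular (Algebra.ofId ℚ K).injective ..).mpr h) :=
      Affine.Point.map_some (Algebra.ofId ℚ K) h
    by_cases h0 : x - (e : ℚ) = 0
    · rw [vl_root h _ _ h0]
      refine (congrArg (fun P => vl P (e : K) (c : K)) hm).trans ?_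
      refine (vl_root _ _ _ ?_).trans ?_
      · rw [hx]
        exact_mod_cast congrArg (Rat.cast : ℚ → K) h0
      · push_cast
        rfl
    · rw [vl_some h _ _ h0]
      refine (congrArg (fun P => vl P (e : K) (c : K)) hm).trans ?_
      refine (vl_some _ _ _ ?_).trans ?_
      · rw [hx]
        intro h1
        apply h0
        have : ((x - (e : ℚ) : ℚ) : K) = 0 := by push_cast; exact h1
        exact_mod_cast this
      · rw [hx]
        push_cast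
        rfl

open Classical in
/-- congruence modulo `2 E(K)` over one field -/
lemma one_field' {K : Type} [Field K] [CharZero K] [Algebra ℚ K] {A B e1 e2 e3 : ℤ}
    (h : ∀ x : ℤ, x ^ 3 + A * x + B = (x - e1) * (x - e2) * (x - e3))
    (h12 : e1 ≠ e2) (h13 : e1 ≠ e3) (h23 : e2 ≠ e3) {n1 n2 : ℤ} (hn1 : n1 ≠ 0) (hn2 : n2 ≠ 0)
    (P : ((WZ A B).baseChange K).Point) (Q : ((WZ A B).baseChange ℚ).Point)
    (p1 : IsSquare (vl P (e1 : K) ((e1 - e2) * (e1 - e3)) * n1))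
    (p2 : IsSquare (vl P (e2 : K) ((e2 - e1) * (e2 - e3)) * n2))
    (q1 : IsSquare (vl Q (e1 : ℚ) ((e1 - e2) * (e1 - e3)) * n1))
    (q2 : IsSquare (vl Q (e2 : ℚ) ((e2 - e1) * (e2 - e3)) * n2)) :
    ∃ R : ((WZ A B).baseChange K).Point, P = Affine.Point.baseChange ℚ K Q + (R + R) := by
  have c12 : (e1 : K) ≠ e2 := fun h => h12 (by exact_mod_cast h)
  have c13 : (e1 : K) ≠ e3 := fun h => h13 (by exact_mod_cast h)
  have c23 : (e2 : K) ≠ e3 := fun h => h23 (by exact_mod_cast h)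
  have hn1' : (n1 : K) ≠ 0 := Int.cast_ne_zero.2 hn1
  have hn2' : (n2 : K) ≠ 0 := Int.cast_ne_zero.2 hn2
  have hW := WZ_eq h K
  obtain ⟨QK, hQK⟩ : ∃ QK : ((WZ A B).baseChange K).Point, QK = Affine.Point.baseChange ℚ K Q :=
    ⟨_, rfl⟩
  have cast_sq : ∀ {v : ℚ} {n : ℤ}, IsSquare (v * n) → IsSquare ((v : K) * (n : K)) := by
    rintro v n ⟨r, hr⟩
    refine ⟨(r : K), ?_⟩
    exact_mod_cast congrArg (Rat.cast : ℚ → K) hr
  have k1 : IsSquare (vl QK (e1 : K) ((e1 - e2) * (e1 - e3)) * n1) := by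
    have := vl_map (K := K) Q e1 ((e1 - e2) * (e1 - e3))
    push_cast at this
    rw [hQK, this]
    exact cast_sq q1
  have k2 : IsSquare (vl QK (e2 : K) ((e2 - e1) * (e2 - e3)) * n2) := by
    have := vl_map (K := K) Q e2 ((e2 - e1) * (e2 - e3))
    push_cast at this
    rw [hQK, this]
    exact cast_sq q2
  have m1 := sq_comb hn1' p1 k1
  have m2 := sq_comb hn2' p2 k2
  have z1 : ((e1 : K) - e2) * (e1 - e3) ≠ 0 :=
    mul_ne_zero (sub_ne_zero.2 c12) (sub_ne_zero.2 c13)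
  have z2 : ((e2 : K) - e1) * (e2 - e3) ≠ 0 :=
    mul_ne_zero (sub_ne_zero.2 c12.symm) (sub_ne_zero.2 c23)
  have m3 := sq_third (vl_ne P z1) (vl_ne P z2) (vl_ne QK z1) (vl_ne QK z2) m1 m2
    (vl_prod hW c12 c13 c23 P) (vl_prod hW c12 c13 c23 QK)
  obtain ⟨R, hR⟩ := add2 hW c12 c13 c23 P QK m1 m2 m3
  refine ⟨R - QK, ?_⟩
  rw [← hQK]
  have : P = R + R - QK := by rw [← hR]; abel
  rw [this]
  abel

open Classical in
/-- **Adelic points orthogonal to the classes `(x - e, q)`.** -/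
theorem adelic_core {A B e1 e2 e3 : ℤ}
    (h : ∀ x : ℤ, x ^ 3 + A * x + B = (x - e1) * (x - e2) * (x - e3))
    (h12 : e1 ≠ e2) (h13 : e1 ≠ e3) (h23 : e2 ≠ e3)
    (h4 : Four ((e2 - e1 : ℤ) : ℚ) ((e3 - e1 : ℤ) : ℚ)) (hc : (Sel (e2 - e1) (e3 - e1)).ncard ≤ 4)
    (Pr : ((WZ A B).baseChange ℝ).Point)
    (Pp : ∀ p : Nat.Primes, ((WZ A B).baseChange ℚ_[(p : ℕ)]).Point)
    (o1 : ∀ q : ℤ, q ≠ 0 → Even (ram ⟨vl Pr (e1 : ℝ) ((e1 - e2) * (e1 - e3)),
      fun p => vl (Pp p) (e1 : ℚ_[(p : ℕ)]) ((e1 - e2) * (e1 - e3))⟩ q).ncard)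
    (o2 : ∀ q : ℤ, q ≠ 0 → Even (ram ⟨vl Pr (e2 : ℝ) ((e2 - e1) * (e2 - e3)),
      fun p => vl (Pp p) (e2 : ℚ_[(p : ℕ)]) ((e2 - e1) * (e2 - e3))⟩ q).ncard) :
    ∃ Q : ((WZ A B).baseChange ℚ).Point,
      (∃ R, Pr = Affine.Point.baseChange ℚ ℝ Q + (R + R)) ∧
      ∀ p : Nat.Primes, ∃ R, Pp p = Affine.Point.baseChange ℚ ℚ_[(p : ℕ)] Q + (R + R) := by
  have ne1 : ∀ (K : Type) [Field K] [CharZero K], ((e1 : K) - e2) * (e1 - e3) ≠ 0 := by
    intro K _ _
    exact mul_ne_zero (sub_ne_zero.2 (fun h => h12 (by exact_mod_cast h)))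
      (sub_ne_zero.2 (fun h => h13 (by exact_mod_cast h)))
  have ne2 : ∀ (K : Type) [Field K] [CharZero K], ((e2 : K) - e1) * (e2 - e3) ≠ 0 := by
    intro K _ _
    exact mul_ne_zero (sub_ne_zero.2 (fun h => h12.symm (by exact_mod_cast h)))
      (sub_ne_zero.2 (fun h => h23 (by exact_mod_cast h)))
  have hA0 : e2 - e1 ≠ 0 := sub_ne_zero.2 h12.symm
  have hB0 : e3 - e1 ≠ 0 := sub_ne_zero.2 h13.symm
  have hAB : e2 - e1 ≠ e3 - e1 := fun h => h23 (by linarith)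
  have hD : (2 * (e2 - e1) * (e3 - e1) * ((e2 - e1) - (e3 - e1)) : ℤ) ≠ 0 :=
    mul_ne_zero (mul_ne_zero (mul_ne_zero two_ne_zero hA0) hB0) (sub_ne_zero.2 hAB)
  have hfinp : {p : Nat.Primes | ((p : ℕ) : ℤ) ∣
      2 * (e2 - e1) * (e3 - e1) * ((e2 - e1) - (e3 - e1))}.Finite := by
    have h1 : (Set.Iic (2 * (e2 - e1) * (e3 - e1) * ((e2 - e1) - (e3 - e1))).natAbs).Finite :=
      Set.finite_Iic _
    apply (h1.preimage (Subtype.val_injective.injOn)).subset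
    intro p hp
    have h2 := Int.natCast_dvd.1 hp
    exact Nat.le_of_dvd (Int.natAbs_pos.2 hD) h2
  have test_ne : ∀ q : ℤ, Pool.Agent.W313.BMX.IsTest q → q ≠ 0 := by
    rintro q (rfl | rfl | ⟨h1, h2⟩)
    · norm_num
    · norm_num
    · rintro rfl
      norm_num at h2
  obtain ⟨n1, hn1, r1, s1⟩ := Pool.Agent.W313.BMX.hexact
    ⟨vl Pr (e1 : ℝ) ((e1 - e2) * (e1 - e3)),
      fun p => vl (Pp p) (e1 : ℚ_[(p : ℕ)]) ((e1 - e2) * (e1 - e3))⟩
    (vl_ne Pr (ne1 ℝ)) (fun p => vl_ne (Pp p) (ne1 _)) (by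
      apply hfinp.subset
      intro p hp
      by_contra hnp
      obtain ⟨⟨m, c, hm, -, hmc⟩, -⟩ := fin_vl (WZ_eq h _) h12 h13 h23 hnp (Pp p)
      exact hp m c hm hmc) (fun q hq _ => o1 q (test_ne q hq))
  obtain ⟨n2, hn2, r2, s2⟩ := Pool.Agent.W313.BMX.hexact
    ⟨vl Pr (e2 : ℝ) ((e2 - e1) * (e2 - e3)),
      fun p => vl (Pp p) (e2 : ℚ_[(p : ℕ)]) ((e2 - e1) * (e2 - e3))⟩
    (vl_ne Pr (ne2 ℝ)) (fun p => vl_ne (Pp p) (ne2 _)) (by
      apply hfinp.subset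
      intro p hp
      by_contra hnp
      obtain ⟨-, ⟨m, c, hm, -, hmc⟩⟩ := fin_vl (WZ_eq h _) h12 h13 h23 hnp (Pp p)
      exact hp m c hm hmc) (fun q hq _ => o2 q (test_ne q hq))
  have hcR : Cov ℝ (e2 - e1) (e3 - e1) n1 n2 :=
    cov_of_vl (WZ_eq h ℝ) (Int.cast_ne_zero.2 hn1.ne_zero) (Int.cast_ne_zero.2 hn2.ne_zero)
      (fun h => h12 (by exact_mod_cast h)) Pr r1 r2
  have hcp : ∀ (p : ℕ) [Fact p.Prime], Cov ℚ_[p] (e2 - e1) (e3 - e1) n1 n2 := by
    intro p hp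
    exact cov_of_vl (WZ_eq h ℚ_[p]) (Int.cast_ne_zero.2 hn1.ne_zero)
      (Int.cast_ne_zero.2 hn2.ne_zero) (fun h => h12 (by exact_mod_cast h)) (Pp ⟨p, hp.out⟩)
      (s1 ⟨p, hp.out⟩) (s2 ⟨p, hp.out⟩)
  have hsel := sel_of hA0 hB0 hAB hn1 hn2 hcR hcp
  obtain ⟨Q, q1, q2⟩ := point_of_cov (WZ_eq h ℚ) hn1.ne_zero hn2.ne_zero h12 h13 h23
    (rat_of_sel hA0 hB0 hAB h4 hc hsel)
  exact ⟨Q, one_field' h h12 h13 h23 hn1.ne_zero hn2.ne_zero Pr Q r1 r2 q1 q2,
    fun p => one_field' h h12 h13 h23 hn1.ne_zero hn2.ne_zero (Pp p) Q (s1 p) (s2 p) q1 q2⟩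

end Pool.Agent.Q284.FDQ
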