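import Pool.Agent.Q284.FDQ.Tors

/-!
# The equations of the curves of the good pairs
-/

set_option autoImplicit false

namespace Pool.Agent.Q284.FDQ

open Finset Pool.Agent.W262.RK Pool.Agent.W307.RT Pool.Agent.W307.RS Pool.Agent.W307.SE
  Pool.Agent.W307.FK Pool.Agent.Y667.RP Pool.Agent.Y667.RZ Pool.Agent.Y667.MT
open Pool.Agent.Y285.RP Pool.Agent.Y285.RZ Pool.Agent.Y738.MT
open Pool.Agent.Y667.PA (TPR)
open Pool.Agent.Q284.ISO

/-- `y² = x (x - A) (x - B)` is an equation of the curve `c` -/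
def Md (c : ℤ × ℤ) (A B : ℤ) : Prop := ∃ C : WeierstrassCurve.VariableChange ℚ,
  C • (⟨0, 0, 0, (c.1 : ℚ), (c.2 : ℚ)⟩ : WeierstrassCurve ℚ) =
    ⟨0, ((-(A + B) : ℤ) : ℚ), 0, ((A * B : ℤ) : ℚ), 0⟩

/-- the properties of an equation -/
def Nice (c : ℤ × ℤ) (A B : ℤ) : Prop := A ≠ 0 ∧ B ≠ 0 ∧ A ≠ B ∧ Four A B ∧
  (Sel A B).ncard = (SelR c.1 c.2).ncard

lemma mdl_gen {c : ℤ × ℤ} {e1 e2 e3 A B : ℤ} {m : ℚ} (hD : 4 * c.1 ^ 3 + 27 * c.2 ^ 2 ≠ 0)
    (hp : ∀ x : ℤ, x ^ 3 + c.1 * x + c.2 = (x - e1) * (x - e2) * (x - e3))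
    (hm : m ≠ 0) (hA : (A : ℚ) = m ^ 2 * ((e2 - e1 : ℤ) : ℚ))
    (hB : (B : ℚ) = m ^ 2 * ((e3 - e1 : ℤ) : ℚ))
    (h4 : Four ((e2 - e1 : ℤ) : ℚ) ((e3 - e1 : ℤ) : ℚ)) : Nice c A B := by
  obtain ⟨d12, d13, d23⟩ := Pool.Agent.W402.FK.dist c.1 c.2 e1 e2 e3 hD hp
  have q12 : ((e2 - e1 : ℤ) : ℚ) ≠ 0 := Int.cast_ne_zero.2 (sub_ne_zero.2 d12.symm)
  have q13 : ((e3 - e1 : ℤ) : ℚ) ≠ 0 := Int.cast_ne_zero.2 (sub_ne_zero.2 d13.symm)
  have hm2 : m ^ 2 ≠ 0 := pow_ne_zero 2 hm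
  have hA0 : A ≠ 0 := by
    rintro rfl
    rw [Int.cast_zero] at hA
    exact mul_ne_zero hm2 q12 hA.symm
  have hB0 : B ≠ 0 := by
    rintro rfl
    rw [Int.cast_zero] at hB
    exact mul_ne_zero hm2 q13 hB.symm
  have hAB : A ≠ B := by
    rintro rfl
    rw [hA] at hB
    have h1 := mul_left_cancel₀ hm2 hB
    have h2 : e2 - e1 = e3 - e1 := by exact_mod_cast h1
    exact d23 (by linarith)
  refine ⟨hA0, hB0, hAB, ?_, ?_⟩
  · rw [hA, hB, Four.scale hm]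
    exact h4
  · have hfin := Pool.Agent.W701.FK.sel_fin' hA0 hB0 hAB
    have := Pool.Agent.Y212.RZ.SELC2 c.1 c.2 e1 e2 e3 A B m⁻¹ hD hp (inv_ne_zero hm)
      (by rw [hA]; field_simp) (by rw [hB]; field_simp) hfin
    exact this.2.symm

/-- the two orders -/
lemma mdl_two {A B X Y m : ℚ} (h1 : A + B = m ^ 2 * (X + Y))
    (h2 : A * B = m ^ 4 * (X * Y)) : (A = m ^ 2 * X ∧ B = m ^ 2 * Y) ∨
      (A = m ^ 2 * Y ∧ B = m ^ 2 * X) := by
  have h3 : (A - m ^ 2 * X) * (A - m ^ 2 * Y) = 0 := by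
    linear_combination (A) * h1 - h2
  rcases mul_eq_zero.1 h3 with h | h
  · left
    exact ⟨by linarith, by linarith⟩
  · right
    exact ⟨by linarith, by linarith⟩

/-- **All the equations.** -/
theorem nice_of {a b k : ℤ} (hk : a + b = 3 * k) (ha : a ≠ 0) (hb : b ≠ 0) (hab : a ≠ b)
    (h4 : Four (a : ℚ) (b : ℚ)) {A B : ℤ} (h : Md (cc a b k) A B) : Nice (cc a b k) A B := by
  have hD : 4 * (cc a b k).1 ^ 3 + 27 * (cc a b k).2 ^ 2 ≠ 0 := by
    rw [cc_disc hk]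
    have : a ^ 2 * b ^ 2 * (a - b) ^ 2 ≠ 0 :=
      mul_ne_zero (mul_ne_zero (pow_ne_zero 2 ha) (pow_ne_zero 2 hb))
        (pow_ne_zero 2 (sub_ne_zero.2 hab))
    exact neg_ne_zero.2 this
  have hp := cc_root hk
  obtain ⟨m, hm, ⟨h1, h2⟩ | ⟨h1, h2⟩ | ⟨h1, h2⟩⟩ := models hk h
  · have h4' := h4
    have h4'' := h4.swap
    rcases mdl_two (A := A) (B := B) (X := a) (Y := b) (m := m)
      (by push_cast at h1; linear_combination -h1) (by push_cast at h2; linear_combination h2)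
      with ⟨g1, g2⟩ | ⟨g1, g2⟩
    · refine mdl_gen (e1 := -k) (e2 := a - k) (e3 := b - k) hD hp hm ?_ ?_ ?_
      · rw [g1]; push_cast; ring
      · rw [g2]; push_cast; ring
      · have e1 : ((a - k - -k : ℤ) : ℚ) = a := by push_cast; ring
        have e2 : ((b - k - -k : ℤ) : ℚ) = b := by push_cast; ring
        rw [e1, e2]; exact h4
    · refine mdl_gen (e1 := -k) (e2 := b - k) (e3 := a - k) hD
        (fun x => by rw [hp x]; ring) hm ?_ ?_ ?_
      · rw [g1]; push_cast; ring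
      · rw [g2]; push_cast; ring
      · have e1 : ((a - k - -k : ℤ) : ℚ) = a := by push_cast; ring
        have e2 : ((b - k - -k : ℤ) : ℚ) = b := by push_cast; ring
        rw [e1, e2]; exact h4.swap
  · have h5 := h4.shift
    rcases mdl_two (A := A) (B := B) (X := -a) (Y := b - a) (m := m)
      (by push_cast at h1; linear_combination -h1) (by push_cast at h2; linear_combination h2)
      with ⟨g1, g2⟩ | ⟨g1, g2⟩
    · refine mdl_gen (e1 := a - k) (e2 := -k) (e3 := b - k) hD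
        (fun x => by rw [hp x]; ring) hm ?_ ?_ ?_
      · rw [g1]; push_cast; ring
      · rw [g2]; push_cast; ring
      · have e1 : ((-k - (a - k) : ℤ) : ℚ) = -a := by push_cast; ring
        have e2 : ((b - k - (a - k) : ℤ) : ℚ) = b - a := by push_cast; ring
        rw [e1, e2]; exact h5
    · refine mdl_gen (e1 := a - k) (e2 := b - k) (e3 := -k) hD
        (fun x => by rw [hp x]; ring) hm ?_ ?_ ?_
      · rw [g1]; push_cast; ring
      · rw [g2]; push_cast; ring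
      · have e1 : ((-k - (a - k) : ℤ) : ℚ) = -a := by push_cast; ring
        have e2 : ((b - k - (a - k) : ℤ) : ℚ) = b - a := by push_cast; ring
        rw [e1, e2]; exact h5.swap
  · have h5 := h4.shift2
    rcases mdl_two (A := A) (B := B) (X := -b) (Y := a - b) (m := m)
      (by push_cast at h1; linear_combination -h1) (by push_cast at h2; linear_combination h2)
      with ⟨g1, g2⟩ | ⟨g1, g2⟩
    · refine mdl_gen (e1 := b - k) (e2 := -k) (e3 := a - k) hD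
        (fun x => by rw [hp x]; ring) hm ?_ ?_ ?_
      · rw [g1]; push_cast; ring
      · rw [g2]; push_cast; ring
      · have e1 : ((-k - (b - k) : ℤ) : ℚ) = -b := by push_cast; ring
        have e2 : ((a - k - (b - k) : ℤ) : ℚ) = a - b := by push_cast; ring
        rw [e1, e2]; exact h5
    · refine mdl_gen (e1 := b - k) (e2 := a - k) (e3 := -k) hD
        (fun x => by rw [hp x]; ring) hm ?_ ?_ ?_
      · rw [g1]; push_cast; ring
      · rw [g2]; push_cast; ring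
      · have e1 : ((-k - (b - k) : ℤ) : ℚ) = -b := by push_cast; ring
        have e2 : ((a - k - (b - k) : ℤ) : ℚ) = a - b := by push_cast; ring
        rw [e1, e2]; exact h5.swap

/-- positive integers `b < a` for which `a` is not a square -/
lemma four_of {a b : ℤ} (hb : 0 < b) (hab : b < a) (hsq : ¬ IsSquare (a : ℚ)) :
    Four (a : ℚ) (b : ℚ) := by
  have hb' : (0 : ℚ) < b := by exact_mod_cast hb
  have hab' : (b : ℚ) < a := by exact_mod_cast hab
  refine ⟨fun h => ?_, fun h => hsq h.1, fun h => ?_⟩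
  · have := h.2.nonneg
    linarith
  · have := h.2.nonneg
    linarith

lemma nsq_int {n : ℤ} (h : ¬ IsSquare n) : ¬ IsSquare (n : ℚ) := by
  rwa [Rat.isSquare_intCast_iff]

section

variable {s : Fin 3 → ℕ}

/-- the pair of the triple -/
lemma hp_four (h : HP s) : (0 : ℤ) < s 1 ∧ (s 1 : ℤ) < s 0 ∧ ¬ IsSquare (s 0 : ℤ) ∧
    ¬ IsSquare (17 * (s 0 : ℤ)) := by
  have h0 : Squarefree (s 0) := h.sq.squarefree_of_dvd (dvd_P 0)
  have h2 : Squarefree (s 2) := h.sq.squarefree_of_dvd (dvd_P 2)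
  have h1 : Squarefree (s 1) := h.sq.squarefree_of_dvd (dvd_P 1)
  have p1 := Nat.pos_of_ne_zero h1.ne_zero
  have p2 := Nat.pos_of_ne_zero h2.ne_zero
  have r := h.rel
  refine ⟨by omega, by omega, ?_, ?_⟩
  · rintro ⟨x, hx⟩
    have hx' : s 0 = x.natAbs * x.natAbs := by
      have := congrArg Int.natAbs hx
      rwa [Int.natAbs_mul, Int.natAbs_natCast] at this
    have h3 : IsUnit x.natAbs := h0 _ ⟨1, by rw [mul_one]; exact hx'⟩
    rw [Nat.isUnit_iff] at h3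
    rw [h3] at hx'
    omega
  · rintro ⟨x, hx⟩
    have hx' : 17 * s 0 = x.natAbs * x.natAbs := by
      have := congrArg Int.natAbs hx
      rwa [Int.natAbs_mul, Int.natAbs_mul, Int.natAbs_natCast] at this
    have h17 : Nat.Prime 17 := by norm_num
    have h3 : 17 ∣ x.natAbs := by
      rcases h17.dvd_mul.1 ⟨s 0, hx'.symm⟩ with h | h <;> exact h
    obtain ⟨y, hy⟩ := h3
    rw [hy] at hx'
    have h4 : s 0 = 17 * (y * y) := by
      have : 17 * s 0 = 17 * (17 * (y * y)) := by rw [hx']; ring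
      omega
    have h5 := h.n0
    omega

end

/-- the property of the curves -/
def PQ (T : ℕ) (c : ℤ × ℤ) : Prop := TPR 0 c ∧ (∀ A B : ℤ, Md c A B → Nice c A B) ∧
  ∃ A B : ℤ, Md c A B ∧ ∃ f : ℕ, (F1 (-(A + B)) (A * B)).ncard = 2 ^ f ∧ T + 2 ≤ f

theorem LD.many {M : ℕ} {L : ℕ → Bool → Bool → Bool → Bool → Prop} {A B k : ℤ} (h : LD M L A B)
    (hk : A + B = 3 * k) {T : ℕ}
    (hp : ∃ i : Fin 3, i ≠ 0 ∧ ∃ f2 : ℕ,
      (GA M (fun p => QQc i (L p))).ncard = 2 ^ f2 ∧ T + 2 ≤ f2) :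
    ∃ A' B' : ℤ, Md (cc A B k) A' B' ∧
      ∃ f : ℕ, (F1 (-(A' + B')) (A' * B')).ncard = 2 ^ f ∧ T + 2 ≤ f := by
  obtain ⟨m1, m2⟩ := model_ex hk
  have hA := h.A0
  have hB := h.B0
  have hAB := sub_ne_zero.2 h.AB
  have hBA := sub_ne_zero.2 h.AB.symm
  obtain ⟨i, hi, f2, k2, k3⟩ := hp
  rcases Pool.Agent.Y655.RZ.fin3 i with rfl | rfl | rfl
  · exact absurd rfl hi
  · have g1 : (2 * A - B) ^ 2 - 4 * (A * (A - B)) = B ^ 2 := by ring
    obtain ⟨e1, e2⟩ := F1_model (α := 2 * A - B) (β := A * (A - B)) one_ne_zero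
      (mul_ne_zero hA hAB) (by rw [g1]; exact pow_ne_zero 2 hB) (by ring) (by ring)
    rw [h.s1] at e1
    have t1 : -(-A + (B - A)) = 2 * A - B := by ring
    have t2 : -A * (B - A) = A * (A - B) := by ring
    refine ⟨-A, B - A, ?_, f2, ?_, k3⟩
    · unfold Md
      rw [t1, t2]
      exact m1
    · rw [t1, t2, e1]; exact k2
  · have g1 : (2 * B - A) ^ 2 - 4 * (B * (B - A)) = A ^ 2 := by ring
    obtain ⟨e1, e2⟩ := F1_model (α := 2 * B - A) (β := B * (B - A)) one_ne_zero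
      (mul_ne_zero hB hBA) (by rw [g1]; exact pow_ne_zero 2 hA) (by ring) (by ring)
    rw [h.s2] at e1
    have t1 : -(-B + (A - B)) = 2 * B - A := by ring
    have t2 : -B * (A - B) = B * (B - A) := by ring
    refine ⟨-B, A - B, ?_, f2, ?_, k3⟩
    · unfold Md
      rw [t1, t2]
      exact m2
    · rw [t1, t2, e1]; exact k2

open Classical in
/-- **A positive proportion of the curves.** -/
theorem curvesPQ (T : ℕ) : ∃ c : ℝ, 0 < c ∧ ∃ H0 : ℕ, ∀ H : ℕ, H0 ≤ H →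
    c * ((Cv 2 H).card : ℝ) ≤ (((Cv 2 H).filter (PQ T)).card : ℝ) := by
  refine transT 0 T (PQ T) fun X t ht h hω => ?_
  obtain ⟨s, hs, e0, e1, hkk, hcase⟩ := pair_hp ht h
  have hs2 : thd t = s 2 := by
    have r0 := hs.rel
    unfold thd
    omega
  rw [hs2] at hω
  obtain ⟨b0, ba, n1, n17⟩ := hp_four hs
  rcases hcase with ⟨h1, h2⟩ | ⟨h1, h2⟩
  · left
    refine ⟨h1, fun A B hAB => ?_, ?_⟩
    · rw [← e0, ← e1] at hAB ⊢
      exact nice_of hkk (by omega) (by omega) (by omega) (four_of b0 ba (nsq_int n1)) hAB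
    · rw [← e0, ← e1]
      apply LD.many hs.ld1 hkk
      obtain ⟨f1, g1, k1, l1, -⟩ := hs.six1 1
      obtain ⟨f2, g2, k2, l2, -⟩ := hs.six1 2
      rcases two_low hs.card_pf (hs.low1 (i := 1) (by decide) l1)
        (hs.low1 (i := 2) (by decide) l2) hω with h3 | h3
      · exact ⟨1, by decide, g1, l1, h3⟩
      · exact ⟨2, by decide, g2, l2, h3⟩
  · right
    have q1 : 17 * (s 0 : ℤ) + 17 * (s 1 : ℤ) = 3 * (17 * (((t.1 + t.2) / 3 : ℕ) : ℤ)) := by
      linarith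
    refine ⟨h1, fun A B hAB => ?_, ?_⟩
    · rw [← e0, ← e1] at hAB ⊢
      exact nice_of q1 (by omega) (by omega) (by omega)
        (four_of (by omega) (by omega) (nsq_int n17)) hAB
    · rw [← e0, ← e1]
      apply LD.many hs.ld17 q1
      obtain ⟨f1, g1, k1, l1, -⟩ := hs.six17 1
      obtain ⟨f2, g2, k2, l2, -⟩ := hs.six17 2
      rcases two_low hs.card_pf (hs.low17 (i := 1) (by decide) l1)
        (hs.low17 (i := 2) (by decide) l2) hω with h3 | h3
      · exact ⟨1, by decide, g1, l1, h3⟩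
      · exact ⟨2, by decide, g2, l2, h3⟩

/-- many quartics without rational points -/
theorem many_not {c : ℤ × ℤ} {T : ℕ} (h : PQ (T + 1) c) :
    ∃ A B : ℤ, Md c A B ∧ 2 ^ T ≤ {b : ℤ | b ∈ F1 (-(A + B)) (A * B) ∧ ¬ Quar ℚ A B b}.ncard := by
  obtain ⟨⟨h1, h2, -⟩, h3, A, B, h4, f, h5, h6⟩ := h
  obtain ⟨hA, hB, hAB, -, hc⟩ := h3 A B h4
  refine ⟨A, B, h4, ?_⟩
  have hc4 : (Sel A B).ncard ≤ 4 := by rw [hc, h2]; norm_num
  have h7 := quar_card hA hB hAB hc4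
  have hfin : {b : ℤ | Squarefree b ∧ b ∣ A * B ∧ Quar ℚ A B b}.Finite := by
    have hf := Pool.Agent.W701.FK.sel_fin' hA hB hAB
    refine (hf.image Prod.fst).subset ?_
    rintro b ⟨h1, h2, h3⟩
    obtain ⟨d, hd, h4⟩ := cov_of_quar hAB h1.ne_zero h2 h3
    exact ⟨(b, d), sel_rat hA hB hAB h1 hd h4, rfl⟩
  have hsub : F1 (-(A + B)) (A * B) \ {b : ℤ | Squarefree b ∧ b ∣ A * B ∧ Quar ℚ A B b} ⊆
      {b : ℤ | b ∈ F1 (-(A + B)) (A * B) ∧ ¬ Quar ℚ A B b} := by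
    rintro b ⟨k1, k2⟩
    exact ⟨k1, fun k3 => k2 ⟨k1.1, k1.2.1, k3⟩⟩
  have hfin2 : (F1 (-(A + B)) (A * B)).Finite := by
    apply Set.finite_of_ncard_ne_zero
    rw [h5]
    positivity
  have h8 := Set.ncard_le_ncard hsub (hfin2.subset fun b hb => hb.1)
  refine le_trans ?_ h8
  have h9 := Set.le_ncard_sdiff {b : ℤ | Squarefree b ∧ b ∣ A * B ∧ Quar ℚ A B b}
    (F1 (-(A + B)) (A * B)) hfin
  rw [h5] at h9
  have h10 : 2 ^ (T + 3) ≤ 2 ^ f := Nat.pow_le_pow_right (by norm_num) (by omega)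
  have h11 : 2 ^ (T + 3) = 8 * 2 ^ T := by ring
  have h12 : 1 ≤ 2 ^ T := Nat.one_le_two_pow
  omega

end Pool.Agent.Q284.FDQ
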