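import Pool.Agent.Q284.FDQ.Cov

/-!
# The classes of the points of order two, and the rational points of the coverings
-/

set_option autoImplicit false

namespace Pool.Agent.Q284.FDQ

open Finset

open Pool.Agent.W307.SE (Loc Sel SelR)

/-- no rational point of order two is divisible by two -/
def Four (A B : ℚ) : Prop := ¬ (IsSquare (-A) ∧ IsSquare (-B)) ∧ ¬ (IsSquare A ∧ IsSquare (A - B)) ∧
  ¬ (IsSquare B ∧ IsSquare (B - A))

lemma sq_div {x r : ℚ} (hr : r ≠ 0) (h : IsSquare (r ^ 2 * x)) : IsSquare x := by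
  obtain ⟨s, hs⟩ := h
  refine ⟨s / r, ?_⟩
  field_simp
  linear_combination hs

lemma sq_mul' {x r : ℚ} (h : IsSquare x) : IsSquare (r ^ 2 * x) := by
  obtain ⟨s, rfl⟩ := h
  exact ⟨r * s, by ring⟩

lemma sq_iff {x r : ℚ} (hr : r ≠ 0) : IsSquare (r ^ 2 * x) ↔ IsSquare x :=
  ⟨sq_div hr, sq_mul'⟩

lemma Four.scale {A B m : ℚ} (hm : m ≠ 0) : Four (m ^ 2 * A) (m ^ 2 * B) ↔ Four A B := by
  unfold Four
  rw [show -(m ^ 2 * A) = m ^ 2 * (-A) by ring, show -(m ^ 2 * B) = m ^ 2 * (-B) by ring,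
    show m ^ 2 * A - m ^ 2 * B = m ^ 2 * (A - B) by ring,
    show m ^ 2 * B - m ^ 2 * A = m ^ 2 * (B - A) by ring, sq_iff hm, sq_iff hm, sq_iff hm,
    sq_iff hm, sq_iff hm, sq_iff hm]

lemma Four.swap {A B : ℚ} (h : Four A B) : Four B A :=
  ⟨fun k => h.1 ⟨k.2, k.1⟩, h.2.2, h.2.1⟩

lemma Four.shift {A B : ℚ} (h : Four A B) : Four (-A) (B - A) := by
  refine ⟨fun k => h.2.1 ⟨by simpa using k.1, by simpa using k.2⟩, fun k => h.1 ⟨k.1, ?_⟩,
    fun k => h.2.2 ⟨?_, k.1⟩⟩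
  · have := k.2
    rwa [show -A - (B - A) = -B by ring] at this
  · have := k.2
    rwa [show B - A - -A = B by ring] at this

lemma Four.shift2 {A B : ℚ} (h : Four A B) : Four (-B) (A - B) := h.swap.shift

section

variable {A B : ℤ}

/-- the pairs of the coverings with rational points -/
def RP (A B : ℤ) : Set (ℤ × ℤ) := {p | Squarefree p.1 ∧ Squarefree p.2 ∧ Cov ℚ A B p.1 p.2}

lemma rp_sub (hA : A ≠ 0) (hB : B ≠ 0) (hAB : A ≠ B) : RP A B ⊆ Sel A B := by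
  rintro ⟨b, d⟩ ⟨h1, h2, h3⟩
  exact sel_rat hA hB hAB h1 h2 h3

/-- squarefree parts -/
lemma sqf (n : ℤ) (hn : n ≠ 0) : ∃ s : ℤ, ∃ k : ℚ, Squarefree s ∧ k ≠ 0 ∧ (n : ℚ) = s * k ^ 2 := by
  obtain ⟨d, t, hd, ht, h, -, -⟩ := Pool.Agent.Y212.RZ.exists_sf n hn
  exact ⟨d, t, hd, Int.cast_ne_zero.2 ht, by exact_mod_cast congrArg (Int.cast : ℤ → ℚ) h⟩

/-- equal squarefree parts -/
lemma sq_of {x y k l : ℚ} {s : ℤ} (hx : x = s * k ^ 2) (hy : y = s * l ^ 2) :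
    IsSquare (x * y) := ⟨s * k * l, by rw [hx, hy]; ring⟩

theorem four_le (hA : A ≠ 0) (hB : B ≠ 0) (hAB : A ≠ B) (h : Four A B) :
    ∃ F : Finset (ℤ × ℤ), F.card = 4 ∧ (F : Set (ℤ × ℤ)) ⊆ RP A B := by
  have hA' : (A : ℚ) ≠ 0 := Int.cast_ne_zero.2 hA
  have hB' : (B : ℚ) ≠ 0 := Int.cast_ne_zero.2 hB
  have hAB' : (A : ℚ) - B ≠ 0 := sub_ne_zero.2 (Int.cast_injective.ne hAB)
  obtain ⟨s0, k0, q0, n0, e0⟩ := sqf (A * B) (mul_ne_zero hA hB)
  obtain ⟨t0, l0, r0, m0, f0⟩ := sqf (-A) (neg_ne_zero.2 hA)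
  obtain ⟨s1, k1, q1, n1, e1⟩ := sqf A hA
  obtain ⟨t1, l1, r1, m1, f1⟩ := sqf (A * (A - B)) (mul_ne_zero hA (sub_ne_zero.2 hAB))
  obtain ⟨s2, k2, q2, n2, e2⟩ := sqf B hB
  obtain ⟨t2, l2, r2, m2, f2⟩ := sqf (B - A) (sub_ne_zero.2 hAB.symm)
  push_cast at e0 f0 f1 f2
  have o : (1 : ℚ) = ((1 : ℤ) : ℚ) * 1 ^ 2 := by norm_num
  have hs0 : (s0 : ℚ) ≠ 0 := Int.cast_ne_zero.2 q0.ne_zero
  have ht0 : (t0 : ℚ) ≠ 0 := Int.cast_ne_zero.2 r0.ne_zero
  have hs1 : (s1 : ℚ) ≠ 0 := Int.cast_ne_zero.2 q1.ne_zero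
  have ht1 : (t1 : ℚ) ≠ 0 := Int.cast_ne_zero.2 r1.ne_zero
  have hs2 : (s2 : ℚ) ≠ 0 := Int.cast_ne_zero.2 q2.ne_zero
  have ht2 : (t2 : ℚ) ≠ 0 := Int.cast_ne_zero.2 r2.ne_zero
  obtain ⟨h1, h2, h3⟩ := h
  have c01 : ((1, 1) : ℤ × ℤ) ≠ (s0, t0) := by
    intro hc
    rw [Prod.mk.injEq] at hc
    obtain ⟨rfl, rfl⟩ := hc
    have g1 := sq_of o e0
    have g2 := sq_of o f0
    rw [one_mul] at g1 g2
    refine h1 ⟨g2, sq_div hA' ?_⟩
    have := g1.mul g2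
    rwa [show (A : ℚ) * B * (-A) = A ^ 2 * (-B) by ring] at this
  have c02 : ((1, 1) : ℤ × ℤ) ≠ (s1, t1) := by
    intro hc
    rw [Prod.mk.injEq] at hc
    obtain ⟨rfl, rfl⟩ := hc
    have g1 := sq_of o e1
    have g2 := sq_of o f1
    rw [one_mul] at g1 g2
    refine h2 ⟨g1, sq_div hA' ?_⟩
    have := g1.mul g2
    rwa [show (A : ℚ) * (A * (A - B)) = A ^ 2 * (A - B) by ring] at this
  have c03 : ((1, 1) : ℤ × ℤ) ≠ (s2, t2) := by
    intro hc
    rw [Prod.mk.injEq] at hc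
    obtain ⟨rfl, rfl⟩ := hc
    have g1 := sq_of o e2
    have g2 := sq_of o f2
    rw [one_mul] at g1 g2
    exact h3 ⟨g1, g2⟩
  have c12 : ((s0, t0) : ℤ × ℤ) ≠ (s1, t1) := by
    intro hc
    rw [Prod.mk.injEq] at hc
    obtain ⟨rfl, rfl⟩ := hc
    have g1 := sq_of e0 e1
    have g2 := sq_of f0 f1
    refine h3 ⟨sq_div hA' ?_, sq_div hA' ?_⟩
    · rwa [show (A : ℚ) * B * A = A ^ 2 * B by ring] at g1
    · rwa [show -(A : ℚ) * (A * (A - B)) = A ^ 2 * (B - A) by ring] at g2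
  have c13 : ((s0, t0) : ℤ × ℤ) ≠ (s2, t2) := by
    intro hc
    rw [Prod.mk.injEq] at hc
    obtain ⟨rfl, rfl⟩ := hc
    have g1 := sq_of e0 e2
    have g2 := sq_of f0 f2
    have g3 : IsSquare (A : ℚ) := by
      apply sq_div hB'
      rwa [show (A : ℚ) * B * B = B ^ 2 * A by ring] at g1
    refine h2 ⟨g3, sq_div hA' ?_⟩
    have := g3.mul g2
    rwa [show (A : ℚ) * (-A * (B - A)) = A ^ 2 * (A - B) by ring] at this
  have c23 : ((s1, t1) : ℤ × ℤ) ≠ (s2, t2) := by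
    intro hc
    rw [Prod.mk.injEq] at hc
    obtain ⟨rfl, rfl⟩ := hc
    have g1 := sq_of e1 e2
    have g2 := sq_of f1 f2
    have g3 : IsSquare (-(A : ℚ)) := by
      apply sq_div hAB'
      rwa [show (A : ℚ) * (A - B) * (B - A) = (A - B) ^ 2 * (-A) by ring] at g2
    refine h1 ⟨g3, sq_div hA' ?_⟩
    have := g1.mul g3
    rwa [show (A : ℚ) * B * (-A) = A ^ 2 * (-B) by ring] at this
  refine ⟨{(1, 1), (s0, t0), (s1, t1), (s2, t2)}, ?_, ?_⟩
  · rw [card_insert_of_notMem, card_insert_of_notMem, card_insert_of_notMem, card_singleton]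
    · rw [mem_singleton]; exact c23
    · rw [mem_insert, mem_singleton]
      exact fun h => h.elim c12 c13
    · rw [mem_insert, mem_insert, mem_singleton]
      exact fun h => h.elim c01 fun h => h.elim c02 c03
  · intro p hp
    rw [mem_coe, mem_insert, mem_insert, mem_insert, mem_singleton] at hp
    rcases hp with rfl | rfl | rfl | rfl
    · exact ⟨squarefree_one, squarefree_one, 1, 0, 1, 1, Or.inl one_ne_zero, by push_cast; ring,
        by push_cast; ring⟩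
    · refine ⟨q0, r0, 0, 1, l0, k0 / (t0 * l0), Or.inr one_ne_zero, ?_, ?_⟩
      · show (s0 : ℚ) * 0 ^ 2 - A * 1 ^ 2 = t0 * l0 ^ 2
        linear_combination f0
      · show (s0 : ℚ) * 0 ^ 2 - B * 1 ^ 2 = s0 * t0 * (k0 / (t0 * l0)) ^ 2
        have : (t0 : ℚ) * l0 ^ 2 * (-B) = s0 * k0 ^ 2 := by
          rw [← e0, ← f0]; ring
        field_simp
        linear_combination this
    · refine ⟨q1, r1, k1, 1, 0, l1 / (s1 * k1), Or.inr one_ne_zero, ?_, ?_⟩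
      · show (s1 : ℚ) * k1 ^ 2 - A * 1 ^ 2 = t1 * 0 ^ 2
        linear_combination -e1
      · show (s1 : ℚ) * k1 ^ 2 - B * 1 ^ 2 = s1 * t1 * (l1 / (s1 * k1)) ^ 2
        have : (s1 : ℚ) * k1 ^ 2 * (s1 * k1 ^ 2 - B) = t1 * l1 ^ 2 := by
          rw [← e1, ← f1]
        field_simp
        linear_combination this
    · refine ⟨q2, r2, k2, 1, l2, 0, Or.inr one_ne_zero, ?_, ?_⟩
      · show (s2 : ℚ) * k2 ^ 2 - A * 1 ^ 2 = t2 * l2 ^ 2
        linear_combination f2 - e2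
      · show (s2 : ℚ) * k2 ^ 2 - B * 1 ^ 2 = s2 * t2 * 0 ^ 2
        linear_combination -e2

/-- If the 2-Selmer group has four elements, all its coverings have rational points. -/
theorem rat_of_sel (hA : A ≠ 0) (hB : B ≠ 0) (hAB : A ≠ B) (h : Four A B)
    (hc : (Sel A B).ncard ≤ 4) {b d : ℤ} (hm : (b, d) ∈ Sel A B) : Cov ℚ A B b d := by
  have hfin := Pool.Agent.W701.FK.sel_fin' hA hB hAB
  obtain ⟨F, hF, hFs⟩ := four_le hA hB hAB h
  have h1 : (F : Set (ℤ × ℤ)) = Sel A B := by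
    apply Set.eq_of_subset_of_ncard_le (hFs.trans (rp_sub hA hB hAB)) _ hfin
    rw [Set.ncard_coe_finset, hF]
    exact hc
  rw [← h1] at hm
  exact (hFs hm).2.2

/-- **All the everywhere locally solvable coverings have rational points.** -/
theorem cov_rat (hA : A ≠ 0) (hB : B ≠ 0) (hAB : A ≠ B) (h : Four A B)
    (hc : (Sel A B).ncard ≤ 4) {b d : ℤ} (hb : Squarefree b) (hd : Squarefree d)
    (hR : Cov ℝ A B b d) (hp : ∀ (p : ℕ) [Fact p.Prime], Cov ℚ_[p] A B b d) : Cov ℚ A B b d :=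
  rat_of_sel hA hB hAB h hc (sel_of hA hB hAB hb hd hR hp)

/-- the number of the quartics with rational points -/
theorem quar_card (hA : A ≠ 0) (hB : B ≠ 0) (hAB : A ≠ B) (hc : (Sel A B).ncard ≤ 4) :
    {b : ℤ | Squarefree b ∧ b ∣ A * B ∧ Quar ℚ A B b}.ncard ≤ 4 := by
  have hfin := Pool.Agent.W701.FK.sel_fin' hA hB hAB
  refine le_trans ?_ hc
  refine le_trans (Set.ncard_le_ncard (t := Prod.fst '' Sel A B) ?_ (hfin.image _))
    (Set.ncard_image_le hfin)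
  rintro b ⟨h1, h2, h3⟩
  obtain ⟨d, hd, h4⟩ := cov_of_quar hAB h1.ne_zero h2 h3
  exact ⟨(b, d), sel_rat hA hB hAB h1 hd h4, rfl⟩

end

/-! ## The dual quartics -/

lemma dual_cov {K : Type} [Field K] [CharZero K] {A B d : ℤ} (hAB : A ≠ B) (hd : d ≠ 0)
    (hdv : d ∣ (A - B) ^ 2) (h : Dual K A B d) : Cov K A B 1 d := by
  obtain ⟨N, M, e, h0, h1⟩ := h
  obtain ⟨c, hc⟩ := hdv
  have hd' : (d : K) ≠ 0 := Int.cast_ne_zero.2 hd
  have hc' : ((A : K) - B) ^ 2 = d * c := by exact_mod_cast congrArg (Int.cast : ℤ → K) hc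
  have hAB' : (A : K) - B ≠ 0 := sub_ne_zero.2 (Int.cast_injective.ne hAB)
  rw [hc, Int.mul_ediv_cancel_left _ hd] at h1
  push_cast at h1
  refine ⟨d * N, 2 * d * M * e, d * M ^ 2 + (B - A) * e ^ 2, d * M ^ 2 - (B - A) * e ^ 2, ?_, ?_, ?_⟩
  · by_contra hcon
    push Not at hcon
    obtain ⟨k1, k2⟩ := hcon
    have hN : N = 0 := (mul_eq_zero.1 k1).resolve_left hd'
    rw [hN] at h1
    have hMe : M * e = 0 := by
      have : (2 * d : K) * (M * e) = 0 := by linear_combination k2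
      exact (mul_eq_zero.1 this).resolve_left (mul_ne_zero two_ne_zero hd')
    rcases mul_eq_zero.1 hMe with hM | he
    · rw [hM] at h1
      have he : e ≠ 0 := h0.resolve_left (not_not.2 hM)
      have : ((A : K) - B) ^ 2 * e ^ 4 = 0 := by
        rw [hc']
        linear_combination (-(d : K)) * h1
      exact mul_ne_zero (pow_ne_zero 2 hAB') (pow_ne_zero 4 he) this
    · rw [he] at h1
      have hM : M ≠ 0 := h0.resolve_right (not_not.2 he)
      have : (d : K) * M ^ 4 = 0 := by linear_combination -h1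
      exact mul_ne_zero hd' (pow_ne_zero 4 hM) this
  · push_cast
    linear_combination (d : K) ^ 2 * h1 - (d : K) * e ^ 4 * hc'
  · push_cast
    linear_combination (d : K) ^ 2 * h1 - (d : K) * e ^ 4 * hc'

lemma cov_dual {A B d : ℤ} (hd : d ≠ 0) (hdv : d ∣ (A - B) ^ 2) (h : Cov ℚ A B 1 d) :
    Dual ℚ A B d := by
  obtain ⟨M, e, x, y, h0, h1, h2⟩ := h
  obtain ⟨c, hc⟩ := hdv
  have hd' : (d : ℚ) ≠ 0 := Int.cast_ne_zero.2 hd
  have hc' : ((A : ℚ) - B) ^ 2 = d * c := by exact_mod_cast congrArg (Int.cast : ℤ → ℚ) hc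
  push_cast at h1 h2
  have h3 : (d : ℚ) * (x ^ 2 - y ^ 2) = (B - A) * e ^ 2 := by linear_combination h2 - h1
  -- the choice of the sign
  have key : ∀ y' : ℚ, y' ^ 2 = y ^ 2 → (x + y' ≠ 0 ∨ e ≠ 0) → Dual ℚ A B d := by
    intro y' hy' h4
    refine ⟨2 * (x + y') * M, x + y', e, h4, ?_⟩
    rw [hc, Int.mul_ediv_cancel_left _ hd]
    push_cast
    have h3' : (d : ℚ) * (x ^ 2 - y' ^ 2) = (B - A) * e ^ 2 := by rw [hy']; exact h3
    have h5 : (c : ℚ) * e ^ 4 = d * (x - y') ^ 2 * (x + y') ^ 2 := by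
      apply mul_left_cancel₀ hd'
      have : (d : ℚ) * (c * e ^ 4) = ((B - A) * e ^ 2) ^ 2 := by
        linear_combination (-e ^ 4) * hc'
      rw [this, ← h3']
      ring
    rw [h5]
    have h6 : M ^ 2 = d * x ^ 2 + A * e ^ 2 := by linear_combination h1
    have h7 : M ^ 2 = d * y' ^ 2 + B * e ^ 2 := by rw [hy']; linear_combination h2
    linear_combination 2 * (x + y') ^ 2 * h6 + 2 * (x + y') ^ 2 * h7
  by_cases he : e = 0
  · have hM : M ≠ 0 := h0.resolve_right (not_not.2 he)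
    rw [he] at h1 h2
    by_cases hxy : x + y = 0
    · refine key (-y) (by ring) (Or.inl ?_)
      intro h8
      have hx : x = 0 := by linarith
      rw [hx] at h1
      apply hM
      have : M ^ 2 = 0 := by linear_combination h1
      exact pow_eq_zero_iff two_ne_zero |>.1 this
    · exact key y rfl (Or.inl hxy)
  · exact key y rfl (Or.inr he)

/-- **All the everywhere locally solvable dual quartics have rational points.** -/
theorem dual_rat {A B d : ℤ} (hA : A ≠ 0) (hB : B ≠ 0) (hAB : A ≠ B) (h : Four A B)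
    (hc : (Sel A B).ncard ≤ 4) (hd : Squarefree d) (hdv : d ∣ (A - B) ^ 2)
    (hR : Dual ℝ A B d) (hp : ∀ (p : ℕ) [Fact p.Prime], Dual ℚ_[p] A B d) : Dual ℚ A B d :=
  cov_dual hd.ne_zero hdv (cov_rat hA hB hAB h hc squarefree_one hd
    (dual_cov hAB hd.ne_zero hdv hR) fun p _ => dual_cov hAB hd.ne_zero hdv (hp p))

end Pool.Agent.Q284.FDQ
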