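import Pool.Agent.Q284.FDQ.BM

/-!
# Points with the same classes are congruent modulo `2 E(K)`
-/

set_option autoImplicit false

open WeierstrassCurve

namespace Pool.Agent.Q284.FDQ

open Pool.Agent.H437R2.Man.MW (crv crv_eqn crv_nonsing add_double halve xRep_add numr)

section

variable {K : Type} [Field K]

open Classical in
/-- the value of `x - e` at a point, modulo squares, `c` is the value at a zero -/
noncomputable def vl {W : WeierstrassCurve K} (P : W.toAffine.Point) (e c : K) : K :=
  match P with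
  | 0 => 1
  | Affine.Point.some x _ _ => if x - e = 0 then c else x - e

lemma vl_zero {W : WeierstrassCurve K} (e c : K) : vl (0 : W.toAffine.Point) e c = 1 := rfl

lemma vl_some {W : WeierstrassCurve K} {x y : K} (h : W.toAffine.Nonsingular x y) (e c : K)
    (hx : x - e ≠ 0) : vl (Affine.Point.some x y h) e c = x - e := if_neg hx

lemma vl_root {W : WeierstrassCurve K} {x y : K} (h : W.toAffine.Nonsingular x y) (e c : K)
    (hx : x - e = 0) : vl (Affine.Point.some x y h) e c = c := if_pos hx

lemma sq_vl {W : WeierstrassCurve K} {x y : K} (h : W.toAffine.Nonsingular x y) {e c : K}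
    (hs : IsSquare (vl (Affine.Point.some x y h) e c)) : ∃ r, x + -e = r ^ 2 := by
  by_cases hx : x - e = 0
  · exact ⟨0, by linear_combination hx⟩
  · rw [vl_some h e c hx] at hs
    obtain ⟨r, hr⟩ := hs
    exact ⟨r, by linear_combination hr⟩

lemma perm12 (a b c : K) : crv a b c = crv b a c := by
  unfold crv
  ext
  · rfl
  · simp only; ring
  · rfl
  · simp only; ring
  · simp only; ring

lemma perm13 (a b c : K) : crv a b c = crv c b a := by
  unfold crv
  ext
  · rfl
  · simp only; ring
  · rfl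
  · simp only; ring
  · simp only; ring

lemma perm23 (a b c : K) : crv a b c = crv a c b := by
  unfold crv
  ext
  · rfl
  · simp only; ring
  · rfl
  · simp only; ring
  · simp only; ring

variable [CharZero K] [DecidableEq K]

/-- a point and a point of order two -/
lemma addT {W : WeierstrassCurve K} {e1 e2 e3 : K} (hW : W = crv (-e1) (-e2) (-e3))
    (h12 : e1 ≠ e2) (h13 : e1 ≠ e3) (h23 : e2 ≠ e3) {x y z w : K}
    (h : W.toAffine.Nonsingular x y) (h' : W.toAffine.Nonsingular z w) (hz : z = e1) (hw : w = 0)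
    (hx1 : x - e1 ≠ 0) (hx2 : x - e2 ≠ 0) (hx3 : x - e3 ≠ 0)
    (s1 : IsSquare ((x - e1) * ((e1 - e2) * (e1 - e3)))) (s2 : IsSquare ((x - e2) * (e1 - e2)))
    (s3 : IsSquare ((x - e3) * (e1 - e3))) :
    ∃ R : W.toAffine.Point, Affine.Point.some x y h + Affine.Point.some z w h' = R + R := by
  subst hW hz hw
  have q12 : -z ≠ -e2 := fun h => h12 (neg_injective h)
  have q13 : -z ≠ -e3 := fun h => h13 (neg_injective h)
  have q23 : -e2 ≠ -e3 := fun h => h23 (neg_injective h)
  obtain ⟨r1, hr1⟩ := s1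
  obtain ⟨r2, hr2⟩ := s2
  obtain ⟨r3, hr3⟩ := s3
  have hy := crv_eqn.mp h.1
  have hx : x ≠ z := sub_ne_zero.1 hx1
  have hX : (crv (-z) (-e2) (-e3)).toAffine.addX x z
      ((crv (-z) (-e2) (-e3)).toAffine.slope x z y 0) =
      numr (-z) (-e2) (-e3) x z (y * 0) / (x - z) ^ 2 := by
    have := xRep_add h h' hx
    rw [Affine.Point.add_of_X_ne hx, Affine.Point.xRep_some] at this
    exact congrFun this 0
  have key : ∃ Q : (crv (-z) (-e2) (-e3)).toAffine.Point, Q + Q =
      Affine.Point.some x y h + Affine.Point.some z 0 h' := by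
    rw [Affine.Point.add_of_X_ne hx]
    apply halve q12 q13 q23 (r1 := r1 / (x - z)) (r2 := r2 * y / ((x - z) * (x - e2)))
      (r3 := r3 * y / ((x - z) * (x - e3)))
    · rw [hX, numr, div_pow, pow_two r1, ← hr1]
      field_simp
      ring
    · have e4 : (r2 * y / ((x - z) * (x - e2))) ^ 2 = (r2 * r2) * y ^ 2 /
          ((x - z) * (x - e2)) ^ 2 := by rw [div_pow]; ring
      rw [hX, numr, e4, ← hr2, hy]
      field_simp
      ring
    · have e4 : (r3 * y / ((x - z) * (x - e3))) ^ 2 = (r3 * r3) * y ^ 2 /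
          ((x - z) * (x - e3)) ^ 2 := by rw [div_pow]; ring
      rw [hX, numr, e4, ← hr3, hy]
      field_simp
      ring
  obtain ⟨Q, hQ⟩ := key
  exact ⟨Q, hQ.symm⟩

/-- two different points of order two -/
lemma addTT {W : WeierstrassCurve K} {e1 e2 e3 : K} (hW : W = crv (-e1) (-e2) (-e3))
    (h12 : e1 ≠ e2) (h13 : e1 ≠ e3) (h23 : e2 ≠ e3) {x y z w : K}
    (h : W.toAffine.Nonsingular x y) (h' : W.toAffine.Nonsingular z w) (hx : x = e1) (hy : y = 0)
    (hz : z = e2) (hw : w = 0) (s1 : IsSquare (e3 - e1)) (s2 : IsSquare (e3 - e2)) :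
    ∃ R : W.toAffine.Point, Affine.Point.some x y h + Affine.Point.some z w h' = R + R := by
  subst hW hx hz hy hw
  have q12 : -x ≠ -z := fun h => h12 (neg_injective h)
  have q13 : -x ≠ -e3 := fun h => h13 (neg_injective h)
  have q23 : -z ≠ -e3 := fun h => h23 (neg_injective h)
  obtain ⟨r1, hr1⟩ := s1
  obtain ⟨r2, hr2⟩ := s2
  have hxz : x - z ≠ 0 := sub_ne_zero.2 h12
  have hX : (crv (-x) (-z) (-e3)).toAffine.addX x z
      ((crv (-x) (-z) (-e3)).toAffine.slope x z 0 0) =
      numr (-x) (-z) (-e3) x z (0 * 0) / (x - z) ^ 2 := by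
    have := xRep_add h h' h12
    rw [Affine.Point.add_of_X_ne h12, Affine.Point.xRep_some] at this
    exact congrFun this 0
  have hX' : (crv (-x) (-z) (-e3)).toAffine.addX x z
      ((crv (-x) (-z) (-e3)).toAffine.slope x z 0 0) = e3 := by
    rw [hX, numr]
    field_simp
    ring
  have key : ∃ Q : (crv (-x) (-z) (-e3)).toAffine.Point, Q + Q =
      Affine.Point.some x 0 h + Affine.Point.some z 0 h' := by
    rw [Affine.Point.add_of_X_ne h12]
    apply halve q12 q13 q23 (r1 := r1) (r2 := r2) (r3 := 0)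
    · rw [hX']; linear_combination hr1
    · rw [hX']; linear_combination hr2
    · rw [hX']; ring
  obtain ⟨Q, hQ⟩ := key
  exact ⟨Q, hQ.symm⟩

lemma sq_cancel {a b : K} (ha : a ≠ 0) (h : IsSquare (a ^ 2 * b)) : IsSquare b := by
  obtain ⟨r, hr⟩ := h
  refine ⟨r / a, ?_⟩
  field_simp
  linear_combination hr

/-- one of the points has order two -/
lemma add_tor {W : WeierstrassCurve K} {e1 e2 e3 : K} (hW : W = crv (-e1) (-e2) (-e3))
    (h12 : e1 ≠ e2) (h13 : e1 ≠ e3) (h23 : e2 ≠ e3) {x y z w : K}
    (h : W.toAffine.Nonsingular x y) (h' : W.toAffine.Nonsingular z w) (hy : y ≠ 0) (hw : w = 0)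
    (s1 : IsSquare (vl (Affine.Point.some x y h) e1 ((e1 - e2) * (e1 - e3)) *
      vl (Affine.Point.some z w h') e1 ((e1 - e2) * (e1 - e3))))
    (s2 : IsSquare (vl (Affine.Point.some x y h) e2 ((e2 - e1) * (e2 - e3)) *
      vl (Affine.Point.some z w h') e2 ((e2 - e1) * (e2 - e3))))
    (s3 : IsSquare (vl (Affine.Point.some x y h) e3 ((e3 - e1) * (e3 - e2)) *
      vl (Affine.Point.some z w h') e3 ((e3 - e1) * (e3 - e2)))) :
    ∃ R : W.toAffine.Point, Affine.Point.some x y h + Affine.Point.some z w h' = R + R := by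
  have e : y ^ 2 = (x - e1) * (x - e2) * (x - e3) := by
    have h1 := h.1
    rw [hW] at h1
    have := crv_eqn.mp h1
    linear_combination this
  have e' : (z - e1) * (z - e2) * (z - e3) = 0 := by
    have h1 := h'.1
    rw [hW] at h1
    have := crv_eqn.mp h1
    rw [hw] at this
    linear_combination -this
  have n1 : x - e1 ≠ 0 := by
    intro h0
    rw [h0] at e
    exact hy (pow_eq_zero_iff two_ne_zero |>.1 (by rw [e]; ring))
  have n2 : x - e2 ≠ 0 := by
    intro h0
    rw [h0] at e
    exact hy (pow_eq_zero_iff two_ne_zero |>.1 (by rw [e]; ring))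
  have n3 : x - e3 ≠ 0 := by
    intro h0
    rw [h0] at e
    exact hy (pow_eq_zero_iff two_ne_zero |>.1 (by rw [e]; ring))
  rw [vl_some h _ _ n1] at s1
  rw [vl_some h _ _ n2] at s2
  rw [vl_some h _ _ n3] at s3
  rcases mul_eq_zero.1 e' with h0 | h0
  · rcases mul_eq_zero.1 h0 with h0 | h0
    · have hz : z = e1 := sub_eq_zero.1 h0
      have m2 : z - e2 ≠ 0 := by rw [hz]; exact sub_ne_zero.2 h12
      have m3 : z - e3 ≠ 0 := by rw [hz]; exact sub_ne_zero.2 h13
      rw [vl_root h' _ _ h0] at s1
      rw [vl_some h' _ _ m2, hz] at s2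
      rw [vl_some h' _ _ m3, hz] at s3
      exact addT hW h12 h13 h23 h h' hz hw n1 n2 n3 s1 s2 s3
    · have hz : z = e2 := sub_eq_zero.1 h0
      have m1 : z - e1 ≠ 0 := by rw [hz]; exact sub_ne_zero.2 h12.symm
      have m3 : z - e3 ≠ 0 := by rw [hz]; exact sub_ne_zero.2 h23
      rw [vl_some h' _ _ m1, hz] at s1
      rw [vl_root h' _ _ h0] at s2
      rw [vl_some h' _ _ m3, hz] at s3
      exact addT (hW.trans (perm12 _ _ _)) h12.symm h23 h13 h h' hz hw n2 n1 n3 s2 s1 s3
  · have hz : z = e3 := sub_eq_zero.1 h0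
    have m1 : z - e1 ≠ 0 := by rw [hz]; exact sub_ne_zero.2 h13.symm
    have m2 : z - e2 ≠ 0 := by rw [hz]; exact sub_ne_zero.2 h23.symm
    rw [vl_some h' _ _ m1, hz] at s1
    rw [vl_some h' _ _ m2, hz] at s2
    rw [vl_root h' _ _ h0] at s3
    refine addT (hW.trans (perm13 _ _ _)) h23.symm h13.symm h12.symm h h' hz hw n3 n2 n1 ?_ s2 s1
    rwa [mul_comm (e3 - e2) (e3 - e1)]

/-- both points have order two -/
lemma tor_tor {W : WeierstrassCurve K} {e1 e2 e3 : K} (hW : W = crv (-e1) (-e2) (-e3))
    (h12 : e1 ≠ e2) (h13 : e1 ≠ e3) (h23 : e2 ≠ e3) {x y z w : K}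
    (h : W.toAffine.Nonsingular x y) (h' : W.toAffine.Nonsingular z w) (hy : y = 0) (hw : w = 0)
    (hx : x = e1) (hz : z = e2)
    (s1 : IsSquare (vl (Affine.Point.some x y h) e1 ((e1 - e2) * (e1 - e3)) *
      vl (Affine.Point.some z w h') e1 ((e1 - e2) * (e1 - e3))))
    (s2 : IsSquare (vl (Affine.Point.some x y h) e2 ((e2 - e1) * (e2 - e3)) *
      vl (Affine.Point.some z w h') e2 ((e2 - e1) * (e2 - e3)))) :
    ∃ R : W.toAffine.Point, Affine.Point.some x y h + Affine.Point.some z w h' = R + R := by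
  have a1 : x - e1 = 0 := by rw [hx, sub_self]
  have a2 : x - e2 ≠ 0 := by rw [hx]; exact sub_ne_zero.2 h12
  have b1 : z - e1 ≠ 0 := by rw [hz]; exact sub_ne_zero.2 h12.symm
  have b2 : z - e2 = 0 := by rw [hz, sub_self]
  rw [vl_root h _ _ a1, vl_some h' _ _ b1, hz] at s1
  rw [vl_some h _ _ a2, vl_root h' _ _ b2, hx] at s2
  refine addTT hW h12 h13 h23 h h' hx hy hz hw (sq_cancel (sub_ne_zero.2 h12) ?_)
    (sq_cancel (sub_ne_zero.2 h12) ?_)
  · rwa [show (e1 - e2) ^ 2 * (e3 - e1) = (e1 - e2) * (e1 - e3) * (e2 - e1) by ring]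
  · rwa [show (e1 - e2) ^ 2 * (e3 - e2) = (e1 - e2) * ((e2 - e1) * (e2 - e3)) by ring]

/-- **Points with the same classes.** -/
theorem add2 {W : WeierstrassCurve K} {e1 e2 e3 : K} (hW : W = crv (-e1) (-e2) (-e3))
    (h12 : e1 ≠ e2) (h13 : e1 ≠ e3) (h23 : e2 ≠ e3) (P Q : W.toAffine.Point)
    (s1 : IsSquare (vl P e1 ((e1 - e2) * (e1 - e3)) * vl Q e1 ((e1 - e2) * (e1 - e3))))
    (s2 : IsSquare (vl P e2 ((e2 - e1) * (e2 - e3)) * vl Q e2 ((e2 - e1) * (e2 - e3))))
    (s3 : IsSquare (vl P e3 ((e3 - e1) * (e3 - e2)) * vl Q e3 ((e3 - e1) * (e3 - e2)))) :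
    ∃ R : W.toAffine.Point, P + Q = R + R := by
  have q12 : -e1 ≠ -e2 := fun h => h12 (neg_injective h)
  have q13 : -e1 ≠ -e3 := fun h => h13 (neg_injective h)
  have q23 : -e2 ≠ -e3 := fun h => h23 (neg_injective h)
  -- halving
  have half : ∀ {x y : K} (h : W.toAffine.Nonsingular x y), (∃ r, x + -e1 = r ^ 2) →
      (∃ r, x + -e2 = r ^ 2) → (∃ r, x + -e3 = r ^ 2) →
      ∃ R : W.toAffine.Point, Affine.Point.some x y h = R + R := by
    intro x y h ⟨r1, hr1⟩ ⟨r2, hr2⟩ ⟨r3, hr3⟩
    subst hW
    obtain ⟨R, hR⟩ := halve q12 q13 q23 hr1 hr2 hr3 h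
    exact ⟨R, hR.symm⟩
  rcases P with _ | ⟨x, y, h⟩
  · rcases Q with _ | ⟨z, w, h'⟩
    · exact ⟨0, rfl⟩
    · change IsSquare (1 * _) at s1 s2 s3
      rw [one_mul] at s1 s2 s3
      obtain ⟨R, hR⟩ := half h' (sq_vl h' s1) (sq_vl h' s2) (sq_vl h' s3)
      exact ⟨R, by rw [← hR]; exact zero_add _⟩
  · rcases Q with _ | ⟨z, w, h'⟩
    · change IsSquare (_ * 1) at s1 s2 s3
      rw [mul_one] at s1 s2 s3
      obtain ⟨R, hR⟩ := half h (sq_vl h s1) (sq_vl h s2) (sq_vl h s3)
      exact ⟨R, by rw [← hR]; exact add_zero _⟩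
    · by_cases hy : y = 0
      · by_cases hw : w = 0
        · -- both have order two
          have ex : (x - e1) * (x - e2) * (x - e3) = 0 := by
            have h1 := h.1
            rw [hW] at h1
            have := crv_eqn.mp h1
            rw [hy] at this
            linear_combination -this
          have ez : (z - e1) * (z - e2) * (z - e3) = 0 := by
            have h1 := h'.1
            rw [hW] at h1
            have := crv_eqn.mp h1
            rw [hw] at this
            linear_combination -this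
          by_cases hxz : x = z
          · refine ⟨0, ?_⟩
            rw [add_zero]
            apply Affine.Point.add_of_Y_eq hxz
            subst hW
            simp only [Affine.negY, crv]
            rw [hy, hw]
            ring
          · have hx : x = e1 ∨ x = e2 ∨ x = e3 := by
              rcases mul_eq_zero.1 ex with h0 | h0
              · rcases mul_eq_zero.1 h0 with h0 | h0
                · exact Or.inl (sub_eq_zero.1 h0)
                · exact Or.inr (Or.inl (sub_eq_zero.1 h0))
              · exact Or.inr (Or.inr (sub_eq_zero.1 h0))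
            have hz : z = e1 ∨ z = e2 ∨ z = e3 := by
              rcases mul_eq_zero.1 ez with h0 | h0
              · rcases mul_eq_zero.1 h0 with h0 | h0
                · exact Or.inl (sub_eq_zero.1 h0)
                · exact Or.inr (Or.inl (sub_eq_zero.1 h0))
              · exact Or.inr (Or.inr (sub_eq_zero.1 h0))
            have s1' := s1
            have s2' := s2
            have s3' := s3
            rw [mul_comm (e1 - e2) (e1 - e3)] at s1'
            rw [mul_comm (e2 - e1) (e2 - e3)] at s2'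
            rw [mul_comm (e3 - e1) (e3 - e2)] at s3'
            rcases hx with hx | hx | hx
            · rcases hz with hz | hz | hz
              · exact absurd (hx.trans hz.symm) hxz
              · exact tor_tor hW h12 h13 h23 h h' hy hw hx hz s1 s2
              · exact tor_tor (hW.trans (perm23 _ _ _)) h13 h12 h23.symm h h' hy hw hx hz s1' s3
            · rcases hz with hz | hz | hz
              · exact tor_tor (hW.trans (perm12 _ _ _)) h12.symm h23 h13 h h' hy hw hx hz s2 s1
              · exact absurd (hx.trans hz.symm) hxz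
              · exact tor_tor (hW.trans ((perm12 _ _ _).trans (perm23 _ _ _))) h23 h12.symm
                  h13.symm h h' hy hw hx hz s2' s3'
            · rcases hz with hz | hz | hz
              · exact tor_tor (hW.trans ((perm13 _ _ _).trans (perm23 _ _ _))) h13.symm h23.symm
                  h12 h h' hy hw hx hz s3 s1'
              · exact tor_tor (hW.trans (perm13 _ _ _)) h23.symm h13.symm h12.symm h h' hy hw hx
                  hz s3' s2'
              · exact absurd (hx.trans hz.symm) hxz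
        · rw [mul_comm] at s1 s2 s3
          obtain ⟨R, hR⟩ := add_tor hW h12 h13 h23 h' h hw hy s1 s2 s3
          exact ⟨R, by rw [add_comm]; exact hR⟩
      · by_cases hw : w = 0
        · exact add_tor hW h12 h13 h23 h h' hy hw s1 s2 s3
        · have nz : ∀ {x y : K} (h : W.toAffine.Nonsingular x y), y ≠ 0 → x - e1 ≠ 0 ∧
              x - e2 ≠ 0 ∧ x - e3 ≠ 0 := by
            intro x y h hy
            have e : y ^ 2 = (x - e1) * (x - e2) * (x - e3) := by
              have h1 := h.1
              rw [hW] at h1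
              have := crv_eqn.mp h1
              linear_combination this
            refine ⟨fun h0 => ?_, fun h0 => ?_, fun h0 => ?_⟩ <;>
            · rw [h0] at e
              exact hy (pow_eq_zero_iff two_ne_zero |>.1 (by rw [e]; ring))
          obtain ⟨n1, n2, n3⟩ := nz h hy
          obtain ⟨m1, m2, m3⟩ := nz h' hw
          rw [vl_some h _ _ n1, vl_some h' _ _ m1] at s1
          rw [vl_some h _ _ n2, vl_some h' _ _ m2] at s2
          rw [vl_some h _ _ n3, vl_some h' _ _ m3] at s3
          obtain ⟨r1, hr1⟩ := s1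
          obtain ⟨r2, hr2⟩ := s2
          obtain ⟨r3, hr3⟩ := s3
          have hne : ∀ {a b r : K}, a ≠ 0 → b ≠ 0 → a * b = r * r → r ≠ 0 := by
            rintro a b r ha hb hab rfl
            rw [mul_zero] at hab
            exact mul_ne_zero ha hb hab
          subst hW
          obtain ⟨Q, hQ⟩ := add_double (r1 := r1) (r2 := r2) (r3 := r3) q12 q13 q23 h h'
            (hne n1 m1 hr1) (hne n2 m2 hr2) (hne n3 m3 hr3)
            (by linear_combination hr1) (by linear_combination hr2) (by linear_combination hr3)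
          exact ⟨Q, hQ.symm⟩

end

end Pool.Agent.Q284.FDQ
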